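import Mathlib

/-!
# A Shirshov type lemma on words with marked letters (job 267, RF-SH1, by helper745)

A word with many marked letters contains either a power `u ^ K` with `|u| ≤ d` in which a marked
letter occurs, or a `d`-divided factor.
-/

set_option autoImplicit false

namespace Pool.Agent.TH37.SH1

variable {Λ : Type}

/-- The words `gs` appear in `l` as disjoint factors, from left to right. -/
def App : List (List Λ) → List Λ → Prop
  | [], _ => True
  | g :: gs, l => ∃ a r, l = a ++ g ++ r ∧ App gs r

theorem App.prepend {gs : List (List Λ)} {l : List Λ} (h : App gs l) (c : List Λ) :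
    App gs (c ++ l) := by
  cases gs with
  | nil => trivial
  | cons g gs =>
    obtain ⟨a, r, rfl, h⟩ := h
    exact ⟨c ++ a, r, by simp, h⟩

theorem App.sublist {gs gs' : List (List Λ)} (hs : gs'.Sublist gs) :
    ∀ {l : List Λ}, App gs l → App gs' l := by
  induction hs with
  | slnil => exact fun h => h
  | cons g hs ih =>
    rintro l ⟨a, r, rfl, h⟩
    exact (ih h).prepend _
  | cons_cons g hs ih =>
    rintro l ⟨a, r, rfl, h⟩
    exact ⟨a, r, rfl, ih h⟩

theorem App.infx {gs vs : List (List Λ)} (h : List.Forall₂ (· <:+: ·) gs vs) :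
    ∀ {l : List Λ}, App vs l → App gs l := by
  induction h with
  | nil => exact fun h => h
  | cons hgv h ih =>
    rintro l ⟨a, r, rfl, h'⟩
    obtain ⟨s, t, rfl⟩ := hgv
    exact ⟨a ++ s, t ++ r, by simp, (ih h').prepend t⟩

theorem App.extend : ∀ {gs : List (List Λ)} {g : List Λ} {l : List Λ}, App (g :: gs) l →
    ∃ a ws b, l = a ++ (ws : List (List Λ)).flatten ++ b ∧ List.Forall₂ (· <+: ·) (g :: gs) ws := by
  intro gs
  induction gs with
  | nil =>
    rintro g l ⟨a, r, rfl, -⟩
    exact ⟨a, [g], r, by simp, .cons (List.prefix_refl g) .nil⟩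
  | cons g' gs ih =>
    rintro g l ⟨a, r, rfl, h⟩
    obtain ⟨a', ws, b, rfl, hf⟩ := ih h
    exact ⟨a, (g ++ a') :: ws, b, by simp, .cons (List.prefix_append _ _) hf⟩

theorem lex_append [LinearOrder Λ] {y x : List Λ} (h : List.Lex (· < ·) y x)
    (hl : y.length = x.length) (s t : List Λ) : List.Lex (· < ·) (y ++ s) (x ++ t) := by
  induction h with
  | nil => simp at hl
  | cons h ih => exact .cons (ih (by simpa using hl))
  | rel h => exact .rel h

theorem lex_append_left [LinearOrder Λ] {y x : List Λ} (h : List.Lex (· < ·) y x) :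
    ∀ s : List Λ, List.Lex (· < ·) (s ++ y) (s ++ x)
  | [] => h
  | _ :: s => .cons (lex_append_left h s)

/-- A permutation of a strictly decreasing sequence of words has a smaller product. -/
theorem flatten_lt [LinearOrder Λ] : ∀ {ws : List (List Λ)},
    ws.Pairwise (fun x y => ∀ s t, List.Lex (· < ·) (y ++ s) (x ++ t)) →
    ∀ ws' : List (List Λ), ws'.Perm ws → ws' ≠ ws →
      List.Lex (· < ·) ws'.flatten ws.flatten := by
  intro ws
  induction ws with
  | nil => intro _ ws' h1 h2; exact absurd (List.perm_nil.1 h1) h2
  | cons x tl ih =>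
    intro hp ws' h1 h2
    rw [List.pairwise_cons] at hp
    cases ws' with
    | nil => exact absurd h1.symm (by simp)
    | cons y tl' =>
      by_cases hxy : y = x
      · subst hxy
        have h3 : tl'.Perm tl := (List.perm_cons y).1 h1
        have h4 : tl' ≠ tl := fun h => h2 (by rw [h])
        have := ih hp.2 tl' h3 h4
        rw [List.flatten_cons, List.flatten_cons]
        exact lex_append_left this y
      · have hy : y ∈ tl := by
          have : y ∈ x :: tl := h1.subset (by simp)
          simpa [hxy] using this
        exact hp.1 y hy _ _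

/-! ## Good windows -/

/-- A window of length `D + 1 + L` with a marked letter in the position `D`. -/
def Good (mark : Λ → Bool) (D L : ℕ) (v : List Λ) : Prop :=
  ∃ c x r, v = c ++ x :: r ∧ c.length = D ∧ mark x = true ∧ r.length = L

theorem split_count (mark : Λ → Bool) : ∀ (n : ℕ) (l : List Λ), n ≤ l.countP mark →
    ∃ l₁ l₂, l = l₁ ++ l₂ ∧ l₁.countP mark = n := by
  intro n l
  induction l generalizing n with
  | nil =>
    intro h
    have : n = 0 := by simpa using h
    exact ⟨[], [], rfl, by simp [this]⟩
  | cons x l ih =>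
    intro h
    cases n with
    | zero => exact ⟨[], x :: l, rfl, by simp⟩
    | succ n =>
      by_cases hx : mark x = true
      · obtain ⟨l₁, l₂, rfl, h'⟩ := ih n (by rw [List.countP_cons] at h; simp [hx] at h; omega)
        exact ⟨x :: l₁, l₂, rfl, by rw [List.countP_cons]; simp [hx, h']⟩
      · obtain ⟨l₁, l₂, rfl, h'⟩ := ih (n + 1) (by
          rw [List.countP_cons] at h; simpa [hx] using h)
        exact ⟨x :: l₁, l₂, rfl, by rw [List.countP_cons]; simp [hx, h']⟩

theorem good_exists (mark : Λ → Bool) (D L : ℕ) (l : List Λ) (h : D + 1 + L ≤ l.countP mark) :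
    ∃ v, v <:+: l ∧ Good mark D L v := by
  obtain ⟨l₁, l₂, rfl, h₁⟩ := split_count mark D l (by omega)
  have h₂ : 1 + L ≤ l₂.countP mark := by
    rw [List.countP_append] at h; omega
  -- the first marked letter of `l₂`
  have h₃ : ∃ s x r, l₂ = s ++ x :: r ∧ mark x = true ∧ s.countP mark = 0 := by
    have h₄ : 1 ≤ l₂.countP mark := by omega
    clear h h₁ h₂
    induction l₂ with
    | nil => simp at h₄
    | cons y l ih =>
      by_cases hy : mark y = true
      · exact ⟨[], y, l, rfl, hy, by simp⟩
      · obtain ⟨s, x, r, rfl, hx, hs⟩ := ih (by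
          rw [List.countP_cons, if_neg hy, Nat.add_zero] at h₄; exact h₄)
        exact ⟨y :: s, x, r, rfl, hx, by rw [List.countP_cons]; simp [hy, hs]⟩
  obtain ⟨s, x, r, rfl, hx, hs⟩ := h₃
  have hr : L ≤ r.length := by
    have h4 : L ≤ r.countP mark := by
      rw [List.countP_append, List.countP_cons, hs] at h₂
      simp [hx] at h₂
      omega
    exact h4.trans (List.countP_le_length)
  have hl : D ≤ (l₁ ++ s).length := by
    have : D ≤ l₁.length := h₁ ▸ List.countP_le_length
    simp; omega
  refine ⟨(l₁ ++ s).drop ((l₁ ++ s).length - D) ++ x :: r.take L, ?_,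
    (l₁ ++ s).drop ((l₁ ++ s).length - D), x, r.take L, rfl, ?_, hx, ?_⟩
  · refine ⟨(l₁ ++ s).take ((l₁ ++ s).length - D), r.drop L, ?_⟩
    have e1 : (l₁ ++ s).take ((l₁ ++ s).length - D) ++ (l₁ ++ s).drop ((l₁ ++ s).length - D)
        = l₁ ++ s := List.take_append_drop _ _
    have e2 : r.take L ++ r.drop L = r := List.take_append_drop _ _
    calc _ = ((l₁ ++ s).take ((l₁ ++ s).length - D) ++ (l₁ ++ s).drop ((l₁ ++ s).length - D))
          ++ x :: (r.take L ++ r.drop L) := by simp only [List.append_assoc, List.cons_append]
      _ = _ := by rw [e1, e2, List.append_assoc]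
  · rw [List.length_drop]; omega
  · rw [List.length_take]; omega

theorem app_good (mark : Λ → Bool) (D L : ℕ) : ∀ (N : ℕ) (l : List Λ),
    N * (D + 1 + L) ≤ l.countP mark → ∃ vs, vs.length = N ∧ App vs l ∧ ∀ v ∈ vs, Good mark D L v := by
  intro N
  induction N with
  | zero => exact fun l _ => ⟨[], rfl, trivial, by simp⟩
  | succ N ih =>
    intro l h
    have h' : N * (D + 1 + L) + (D + 1 + L) ≤ l.countP mark := by rw [← Nat.succ_mul]; exact h
    obtain ⟨l₁, l₂, rfl, h₁⟩ := split_count mark (D + 1 + L) l (by omega)
    obtain ⟨vs, hvs, happ, hg⟩ := ih l₂ (by rw [List.countP_append] at h'; omega)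
    obtain ⟨v, ⟨a, b, rfl⟩, hv⟩ := good_exists mark D L l₁ h₁.ge
    exact ⟨v :: vs, by simp [hvs], ⟨a, b ++ l₂, by simp, happ.prepend b⟩, by
      intro w hw
      rcases List.mem_cons.1 hw with rfl | hw
      · exact hv
      · exact hg w hw⟩

/-! ## Periodic words -/

theorem periodic_prefix (p : ℕ) : ∀ (K n : ℕ) (m : List Λ), p * K ≤ n → p * K ≤ m.length →
    m.take n = (m.drop p).take n → (List.replicate K (m.take p)).flatten <+: m := by
  intro K
  induction K with
  | zero => intro n m _ _ _; simp
  | succ K ih =>
    intro n m hn hm h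
    have hp : p ≤ n := by
      have : p * (K + 1) = p * K + p := Nat.mul_succ p K
      omega
    have e1 : (m.drop p).take p = m.take p := by
      have := congrArg (List.take p) h
      rw [List.take_take, List.take_take, min_eq_left hp] at this
      exact this.symm
    have e2 : (m.drop p).take (n - p) = ((m.drop p).drop p).take (n - p) := by
      have := congrArg (List.drop p) h
      rw [List.drop_take, List.drop_take] at this
      exact this
    have := ih (n - p) (m.drop p) (by rw [Nat.mul_succ] at hn; omega)
      (by rw [List.length_drop]; rw [Nat.mul_succ] at hm; omega) e2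
    rw [e1] at this
    obtain ⟨b, hb⟩ := this
    refine ⟨b, ?_⟩
    rw [List.replicate_succ, List.flatten_cons, List.append_assoc, hb, List.take_append_drop]

theorem periodic_get (p : ℕ) (hp : 0 < p) (n : ℕ) (m : List Λ)
    (h : m.take n = (m.drop p).take n) : ∀ i, i < n → m[i]? = (m.take p)[i % p]? := by
  intro i
  induction i using Nat.strong_induction_on with
  | _ i ih =>
    intro hi
    by_cases hip : i < p
    · rw [Nat.mod_eq_of_lt hip, List.getElem?_take_of_lt hip]
    · have h1 : (m.take n)[i - p]? = ((m.drop p).take n)[i - p]? := by rw [h]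
      rw [List.getElem?_take_of_lt (by omega), List.getElem?_take_of_lt (by omega),
        List.getElem?_drop] at h1
      rw [show p + (i - p) = i by omega] at h1
      rw [← h1, ih (i - p) (by omega) (by omega)]
      congr 1
      exact (Nat.mod_eq_sub_mod (by omega)).symm

/-- If two factors of a good window, of length `L`, are equal, then the window contains a power. -/
theorem power_of_eq (mark : Λ → Bool) (D L K : ℕ) (hL : (D + 1) * K + (D + 1) ≤ L) (v : List Λ)
    (hv : Good mark D L v) (o o' : ℕ) (ho : o < o') (ho' : o' ≤ D)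
    (h : (v.drop o).take L = (v.drop o').take L) :
    ∃ a u b : List Λ, v = a ++ (List.replicate K u).flatten ++ b ∧ u.length ≤ D + 1 ∧
        ∃ x ∈ u, mark x = true := by
  obtain ⟨c, x, r, rfl, hc, hx, hr⟩ := hv
  have hp : 0 < o' - o := by omega
  have h' : ((c ++ x :: r).drop o).take L
      = (((c ++ x :: r).drop o).drop (o' - o)).take L := by
    rw [List.drop_drop, show o + (o' - o) = o' by omega]; exact h
  have hpK : (o' - o) * K ≤ (D + 1) * K := Nat.mul_le_mul_right _ (by omega)
  obtain ⟨b, hb⟩ := periodic_prefix (o' - o) K L _ (by omega)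
    (by rw [List.length_drop, List.length_append, List.length_cons]; omega) h'
  refine ⟨(c ++ x :: r).take o, ((c ++ x :: r).drop o).take (o' - o), b, ?_, ?_, x, ?_, hx⟩
  · rw [List.append_assoc, hb, List.take_append_drop]
  · rw [List.length_take]; omega
  · have hDL : D < L := by
      have := Nat.zero_le ((D + 1) * K)
      omega
    have h2 := periodic_get (o' - o) hp L _ h' (D - o) (by omega)
    rw [List.getElem?_drop, show o + (D - o) = D by omega,
      List.getElem?_append_right (by omega), hc, Nat.sub_self, List.getElem?_cons_zero] at h2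
    exact List.mem_of_getElem? h2.symm

/-! ## The main lemma -/

theorem decreasing_factors [LinearOrder Λ] (mark : Λ → Bool) (D L : ℕ) (v : List Λ)
    (hv : Good mark D L v)
    (hne : ∀ o o', o < o' → o' ≤ D → (v.drop o).take L ≠ (v.drop o').take L) :
    ∃ gs : List (List Λ), gs.length = D + 1 ∧ (∀ g ∈ gs, g <:+: v ∧ g.length = L) ∧
      gs.Pairwise (fun x y => y < x) := by
  classical
  let gs₀ : List (List Λ) := (List.range (D + 1)).map fun o => (v.drop o).take L
  have hnd : gs₀.Nodup := by
    refine List.Nodup.map_on ?_ List.nodup_range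
    intro o ho o' ho' h
    rw [List.mem_range] at ho ho'
    rcases lt_trichotomy o o' with h1 | h1 | h1
    · exact absurd h (hne o o' h1 (by omega))
    · exact h1
    · exact absurd h.symm (hne o' o h1 (by omega))
  obtain ⟨c, x, r, rfl, hc, hx, hr⟩ := hv
  refine ⟨gs₀.insertionSort (fun x y => y ≤ x), ?_, ?_, ?_⟩
  · rw [List.length_insertionSort]; simp [gs₀]
  · intro g hg
    rw [List.mem_insertionSort] at hg
    obtain ⟨o, ho, rfl⟩ := List.mem_map.1 hg
    rw [List.mem_range] at ho
    refine ⟨(List.take_prefix _ _).isInfix.trans (List.drop_suffix _ _).isInfix, ?_⟩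
    rw [List.length_take, List.length_drop, List.length_append, List.length_cons]
    omega
  · have h1 : (gs₀.insertionSort (fun x y => y ≤ x)).Pairwise (fun x y => y ≤ x) :=
      List.pairwise_insertionSort _ _
    have h2 : (gs₀.insertionSort (fun x y => y ≤ x)).Nodup :=
      (List.perm_insertionSort _ _).nodup_iff.2 hnd
    exact (h1.and h2).imp fun ⟨h3, h4⟩ => lt_of_le_of_ne h3 (Ne.symm h4)

theorem pigeon {α : Type} (vs : List α) (S : Finset α) (h : ∀ v ∈ vs, v ∈ S) (n : ℕ)
    (hlen : S.card * n < vs.length) : ∃ W ∈ S, (List.replicate n W).Sublist vs := by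
  classical
  by_contra hcon
  push Not at hcon
  have h1 : ∀ W ∈ S, vs.count W ≤ n := fun W hW => by
    have := hcon W hW
    rw [List.replicate_sublist_iff] at this
    omega
  have h2 := Multiset.sum_count_eq_card (s := S) (m := (vs : Multiset α))
    (fun a ha => h a (Multiset.mem_coe.1 ha))
  simp only [Multiset.coe_count, Multiset.coe_card] at h2
  have h3 := Finset.sum_le_sum h1
  rw [Finset.sum_const, smul_eq_mul, h2] at h3
  omega

theorem ofFn_get_cast {α : Type} {n : ℕ} (ws : List α) (h : ws.length = n) :
    List.ofFn (fun i : Fin n => ws.get (i.cast h.symm)) = ws := by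
  subst h
  exact List.ofFn_get ws

/-- JOB SH1 -/
theorem shirshov_comb (Λ : Type) [Finite Λ] [LinearOrder Λ] (mark : Λ → Bool) (d K : ℕ) :
    ∃ M : ℕ, ∀ l : List Λ, M ≤ l.countP mark →
      (∃ a u b : List Λ, l = a ++ (List.replicate K u).flatten ++ b ∧ u.length ≤ d ∧
        ∃ x ∈ u, mark x = true) ∨
      (∃ (a : List Λ) (w : Fin d → List Λ) (b : List Λ), l = a ++ (List.ofFn w).flatten ++ b ∧
        (∀ i, w i ≠ []) ∧ ∀ π : Equiv.Perm (Fin d), π ≠ 1 →
          List.Lex (· < ·) ((List.ofFn fun k => w (π k)).flatten) ((List.ofFn w).flatten)) := by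
  classical
  cases d with
  | zero =>
    refine ⟨0, fun l _ => Or.inr ⟨l, fun i => i.elim0, [], by simp, fun i => i.elim0, fun π hπ => ?_⟩⟩
    exact absurd (Subsingleton.elim π 1) hπ
  | succ D =>
    let L := (D + 1) * K + (D + 1)
    let B := D + 1 + L
    have hfin : {v : List Λ | v.length = B}.Finite := List.finite_length_eq Λ B
    let q := hfin.toFinset.card
    let N := q * (D + 1) + 1
    refine ⟨N * (D + 1 + L), fun l hl => ?_⟩
    by_cases hpow : ∃ v, v <:+: l ∧ Good mark D L v ∧ ∃ o o', o < o' ∧ o' ≤ D ∧
        (v.drop o).take L = (v.drop o').take L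
    · left
      obtain ⟨v, ⟨s, t, rfl⟩, hv, o, o', h1, h2, h3⟩ := hpow
      obtain ⟨a, u, b, rfl, hu, hm⟩ := power_of_eq mark D L K le_rfl v hv o o' h1 h2 h3
      exact ⟨s ++ a, u, b ++ t, by simp, hu, hm⟩
    · right
      obtain ⟨vs, hvs, happ, hg⟩ := app_good mark D L N l hl
      -- a window which appears `D + 1` times
      obtain ⟨W, -, hWl⟩ := pigeon vs hfin.toFinset (fun v hv => by
        rw [Set.Finite.mem_toFinset]
        obtain ⟨c, x, r, rfl, hc, -, hr⟩ := hg v hv
        simp only [Set.mem_ofPred_eq, List.length_append, List.length_cons, B]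
        omega) (D + 1) (by rw [hvs]; exact Nat.lt_succ_self _)
      have hWvs : W ∈ vs := hWl.subset (by simp)
      have happW := happ.sublist hWl
      have hWg := hg W hWvs
      have hWin : W <:+: l := by
        obtain ⟨a, r, rfl, -⟩ := happW
        exact ⟨a, r, rfl⟩
      have hne : ∀ o o', o < o' → o' ≤ D → (W.drop o).take L ≠ (W.drop o').take L :=
        fun o o' h1 h2 h3 => hpow ⟨W, hWin, hWg, o, o', h1, h2, h3⟩
      obtain ⟨gs, hgs, hgs', hpw⟩ := decreasing_factors mark D L W hWg hne
      have happg : App gs l := by
        refine App.infx ?_ happW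
        rw [List.forall₂_iff_get]
        refine ⟨by simp [hgs], fun i h1 h2 => ?_⟩
        simp only [List.get_eq_getElem, List.getElem_replicate]
        exact (hgs' _ (List.getElem_mem _)).1
      cases gs with
      | nil => simp at hgs
      | cons g gs =>
        obtain ⟨a, ws, b, rfl, hws⟩ := happg.extend
        have hwsl : ws.length = D + 1 := by rw [← hws.length_eq, hgs]
        have hget : ∀ i (h1 : i < (g :: gs).length) (h2 : i < ws.length),
            (g :: gs)[i] <+: ws[i] := fun i h1 h2 => by
          have := (List.forall₂_iff_get.1 hws).2 i h1 h2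
          simpa only [List.get_eq_getElem] using this
        have hpre : ws.Pairwise (fun x y => ∀ s t, List.Lex (· < ·) (y ++ s) (x ++ t)) := by
          rw [List.pairwise_iff_getElem] at hpw ⊢
          intro i j hi hj hij s t
          have hi' : i < (g :: gs).length := by omega
          have hj' : j < (g :: gs).length := by omega
          obtain ⟨ti, hti⟩ := hget i hi' hi
          obtain ⟨tj, htj⟩ := hget j hj' hj
          have h := hpw i j hi' hj' hij
          rw [← hti, ← htj, List.append_assoc, List.append_assoc]
          refine lex_append h ?_ _ _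
          rw [(hgs' _ (List.getElem_mem hi')).2, (hgs' _ (List.getElem_mem hj')).2]
        have hofn : List.ofFn (fun i : Fin (D + 1) => ws.get (i.cast hwsl.symm)) = ws :=
          ofFn_get_cast ws hwsl
        refine ⟨a, fun i => ws.get (i.cast hwsl.symm), b, ?_, ?_, ?_⟩
        · rw [hofn]
        · intro i hi
          have h1 := hget i (by rw [hgs]; exact i.2) (by rw [hwsl]; exact i.2)
          have h2 := (hgs' _ (List.getElem_mem (l := g :: gs) (n := (i : ℕ)) (by rw [hgs]; exact i.2))).2
          have h3 : ws[(i : ℕ)]'(by rw [hwsl]; exact i.2) = [] := hi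
          rw [h3] at h1
          rw [List.prefix_nil.1 h1] at h2
          simp only [List.length_nil, L] at h2
          omega
        · intro π hπ
          rw [hofn]
          refine flatten_lt hpre _ ?_ ?_
          · have := Equiv.Perm.ofFn_comp_perm π (fun i : Fin (D + 1) => ws.get (i.cast hwsl.symm))
            rw [hofn] at this
            exact this
          · intro h
            apply hπ
            have h' := List.ofFn_injective (h.trans hofn.symm)
            have hnd : ws.Nodup := hpre.imp fun {x y} hxy => by
              rintro rfl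
              have := hxy [] []
              rw [List.append_nil] at this
              exact lt_irrefl x this
            ext k
            have h1 := congrFun h' k
            have h2 := hnd.injective_get h1
            simpa [Fin.ext_iff] using h2

end Pool.Agent.TH37.SH1
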