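import Pool.Agent.TH37.RF.Defs

/-! Assembly, part 1: passing to quotients and subalgebras. -/

set_option autoImplicit false

namespace Pool.Agent.TH37.RF

section

variable {F C C' : Type} [Field F] [Ring C] [Algebra F C] [Ring C'] [Algebra F C']

theorem ev3_map (c : List (Fin 3) →₀ F) (φ : C →ₐ[F] C') (x y z : C) :
    φ (ev3 c x y z) = ev3 c (φ x) (φ y) (φ z) := by
  rw [ev3, ev3, Finsupp.sum, Finsupp.sum, map_sum]
  refine Finset.sum_congr rfl fun w _ => ?_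
  rw [map_smul, map_list_prod, List.map_map]
  congr 3
  funext i
  fin_cases i <;> rfl

theorem fgen_map (ε : C →ₐ[F] F) (ε' : C' →ₐ[F] F) (π : C →ₐ[F] C')
    (hπ : Function.Surjective π) (hε : ∀ x, ε' (π x) = ε x) (h : FGen ε) : FGen ε' := by
  obtain ⟨r, b, hb, hgen⟩ := h
  refine ⟨r, fun i => π (b i), fun i => by rw [hε, hb], ?_⟩
  have h1 : Set.range (fun i => π (b i)) = π '' Set.range b := by
    rw [← Set.range_comp]
    rfl
  rw [h1, ← AlgHom.map_adjoin, hgen, Algebra.map_top]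
  exact (AlgHom.range_eq_top π).2 hπ

theorem ident_map (c : List (Fin 3) →₀ F) (ε : C →ₐ[F] F) (ε' : C' →ₐ[F] F) (π : C →ₐ[F] C')
    (hπ : Function.Surjective π) (hε : ∀ x, ε' (π x) = ε x) (h : Ident c ε) : Ident c ε' := by
  intro x y z hx hy hz
  obtain ⟨x, rfl⟩ := hπ x
  obtain ⟨y, rfl⟩ := hπ y
  obtain ⟨z, rfl⟩ := hπ z
  rw [hε] at hx hy hz
  rw [← ev3_map, h x y z hx hy hz, map_zero]

theorem ident_inj (c : List (Fin 3) →₀ F) (ε : C →ₐ[F] F) (ε' : C' →ₐ[F] F) (ι : C' →ₐ[F] C)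
    (hι : Function.Injective ι) (hε : ∀ x, ε (ι x) = ε' x) (h : Ident c ε) : Ident c ε' := by
  intro x y z hx hy hz
  apply hι
  rw [ev3_map, map_zero]
  exact h _ _ _ (by rw [hε, hx]) (by rw [hε, hy]) (by rw [hε, hz])

/-- pulling back a two-sided ideal -/
theorem commIdeal_image (φ : C →ₐ[F] C') (x : C) (hx : x ∈ commIdeal C) : φ x ∈ commIdeal C' := by
  have h : commIdeal C ≤ (commIdeal C').comap φ := by
    rw [commIdeal, TwoSidedIdeal.span_le]
    rintro _ ⟨u, v, rfl⟩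
    rw [SetLike.mem_coe, TwoSidedIdeal.mem_comap, map_sub, map_mul, map_mul]
    exact TwoSidedIdeal.subset_span ⟨_, _, rfl⟩
  exact (TwoSidedIdeal.mem_comap _).1 (h hx)

theorem nilp_inj (ι : C' →ₐ[F] C) (hι : Function.Injective ι) (h : NilpId (commIdeal C)) :
    NilpId (commIdeal C') := by
  obtain ⟨n, hn⟩ := h
  refine ⟨n, fun x hx => ?_⟩
  apply hι
  rw [map_list_prod, map_zero, List.map_ofFn]
  exact hn _ fun i => commIdeal_image ι _ (hx i)

theorem commIdeal_lift (π : C →ₐ[F] C') (hπ : Function.Surjective π) (x : C')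
    (hx : x ∈ commIdeal C') : ∃ y ∈ commIdeal C, π y = x := by
  let I : TwoSidedIdeal C' := TwoSidedIdeal.mk' {x | ∃ y ∈ commIdeal C, π y = x}
    ⟨0, (commIdeal C).zero_mem, map_zero _⟩
    (by
      rintro _ _ ⟨u, hu, rfl⟩ ⟨v, hv, rfl⟩
      exact ⟨u + v, (commIdeal C).add_mem hu hv, map_add _ _ _⟩)
    (by
      rintro _ ⟨u, hu, rfl⟩
      exact ⟨-u, (commIdeal C).neg_mem hu, map_neg _ _⟩)
    (by
      rintro c _ ⟨u, hu, rfl⟩
      obtain ⟨c, rfl⟩ := hπ c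
      exact ⟨c * u, (commIdeal C).mul_mem_left _ _ hu, map_mul _ _ _⟩)
    (by
      rintro _ c ⟨u, hu, rfl⟩
      obtain ⟨c, rfl⟩ := hπ c
      exact ⟨u * c, (commIdeal C).mul_mem_right _ _ hu, map_mul _ _ _⟩)
  have hI : ∀ x, x ∈ I ↔ ∃ y ∈ commIdeal C, π y = x :=
    fun x => TwoSidedIdeal.mem_mk' _ _ _ _ _ _ x
  have h1 : commIdeal C' ≤ I := by
    rw [commIdeal, TwoSidedIdeal.span_le]
    rintro _ ⟨u, v, rfl⟩
    obtain ⟨u, rfl⟩ := hπ u
    obtain ⟨v, rfl⟩ := hπ v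
    rw [SetLike.mem_coe, hI]
    exact ⟨u * v - v * u, TwoSidedIdeal.subset_span ⟨_, _, rfl⟩, by
      rw [map_sub, map_mul, map_mul]⟩
  exact (hI x).1 (h1 hx)

theorem nilp_map (π : C →ₐ[F] C') (hπ : Function.Surjective π) (h : NilpId (commIdeal C)) :
    NilpId (commIdeal C') := by
  obtain ⟨n, hn⟩ := h
  refine ⟨n, fun x hx => ?_⟩
  choose y hy hyx using fun i => commIdeal_lift π hπ (x i) (hx i)
  have h1 := congrArg π (hn y hy)
  rw [map_list_prod, map_zero, List.map_ofFn] at h1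
  rw [← h1]
  congr 2
  funext i
  exact (hyx i).symm

theorem good_map (c : List (Fin 3) →₀ F) (ε : C →ₐ[F] F) (ε' : C' →ₐ[F] F) (π : C →ₐ[F] C')
    (hπ : Function.Surjective π) (hε : ∀ x, ε' (π x) = ε x) (h : Good c ε) : Good c ε' :=
  ⟨fgen_map ε ε' π hπ hε h.fg, nilp_map π hπ h.nil, ident_map c ε ε' π hπ hε h.ident⟩

end

end Pool.Agent.TH37.RF
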