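import Pool.Agent.TH37.RF.LemS4

/-! Lemma S, conclusion. -/

set_option autoImplicit false

namespace Pool.Agent.TH37.RF

open MvPolynomial

section

variable {F C : Type} [Field F] [Ring C] [Algebra F C] {r k : ℕ}
variable {b : Fin r → C} {ε : C →ₐ[F] F} {Φ : MvPolynomial (Fin (k + 2) × Fin r) F →ₗ[F] C}

theorem lift_poly {Cq : Type} [CommRing Cq] [Algebra F Cq] (q : C →ₐ[F] Cq)
    (hb : ∀ i, ε (b i) = 0) (hgen : Algebra.adjoin F (Set.range b) = ⊤)
    (π : MvPolynomial (Fin r) F →ₐ[F] Cq) (hπ : ∀ i, π (X i) = q (b i)) (c : C) :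
    ∃ p : MvPolynomial (Fin r) F, π p = q c ∧ constantCoeff p = ε c := by
  have hc : c ∈ Algebra.adjoin F (Set.range b) := by rw [hgen]; trivial
  induction hc using Algebra.adjoin_induction with
  | mem c hc =>
    obtain ⟨i, rfl⟩ := hc
    exact ⟨X i, hπ i, by rw [hb, constantCoeff_X]⟩
  | algebraMap a =>
    refine ⟨MvPolynomial.C a, ?_, ?_⟩
    · rw [← MvPolynomial.algebraMap_eq, AlgHom.commutes, AlgHom.commutes]
    · rw [constantCoeff_C, AlgHom.commutes]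
      rfl
  | add c d _ _ hc hd =>
    obtain ⟨p1, h1, h1'⟩ := hc
    obtain ⟨p2, h2, h2'⟩ := hd
    exact ⟨p1 + p2, by rw [map_add, map_add, h1, h2], by rw [map_add, map_add, h1', h2']⟩
  | mul c d _ _ hc hd =>
    obtain ⟨p1, h1, h1'⟩ := hc
    obtain ⟨p2, h2, h2'⟩ := hd
    exact ⟨p1 * p2, by rw [map_mul, map_mul, h1, h2], by rw [map_mul, map_mul, h1', h2']⟩

/-- all variables lie in `Q` -/
theorem all_mem {Cq : Type} [CommRing Cq] [Algebra F Cq] (q : C →ₐ[F] Cq)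
    (hΦ : PhiData F r k b ε Φ) (hb : ∀ i, ε (b i) = 0)
    (hgen : Algebra.adjoin F (Set.range b) = ⊤) (h : C) (hm : Mono ε h)
    (hh : ∀ i, b i * h = 0 ∧ h * b i = 0)
    (α : ℕ × ℕ × ℕ →₀ F) (n₀ : ℕ) (hn₀ : α (0, n₀, 0) ≠ 0)
    (hsmall : ∀ (K : Type) [CommRing K] [IsDomain K] [Algebra F K] (χ : C →ₐ[F] K),
      (∀ z, ε z = 0 → Polynomial.aeval (χ z) (pivPoly α) = 0) → ∀ z, ε z = 0 → χ z = 0)
    (π : MvPolynomial (Fin r) F →ₐ[F] Cq) (hπ : ∀ i, π (X i) = q (b i))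
    (hπs : Function.Surjective π)
    (hker : ∀ p, π p = 0 → ∀ g, rho F g p ∈ kerId Φ)
    (hrel : ∀ (g : Fin (k + 2)), g ≠ 0 → g ≠ Fin.last (k + 1) → ∀ z, ε z = 0 → ∀ p,
      q z = π p → Prel α g p ∈ kerId Φ)
    (w : MvPolynomial (Fin (k + 2) × Fin r) F) (Q : Ideal (MvPolynomial (Fin (k + 2) × Fin r) F))
    (hQ : Q.IsPrime) (hQw : ∀ f, f ∈ Q ↔ f * w ∈ kerId Φ) :
    ∀ t, X t ∈ Q := by
  classical
  have hout := outer_mem hΦ hgen h hm hh α n₀ hn₀ (by
    intro g hg0 hgl i f hf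
    apply hrel g hg0 hgl (Polynomial.aeval (b i) f)
    · rw [← Polynomial.aeval_algHom_apply, hb, Polynomial.aeval_def, Polynomial.eval₂_at_zero, hf,
        map_zero]
    · rw [← Polynomial.aeval_algHom_apply, ← Polynomial.aeval_algHom_apply, hπ]) w Q hQ hQw
  have hK : kerId Φ ≤ Q := by
    intro f hf
    rw [hQw]
    exact (kerId Φ).mul_mem_right _ hf
  rintro ⟨g, i⟩
  by_cases hg0 : g = 0
  · subst hg0
    have h1 := hout (0, i)
    rwa [iot, rename_X] at h1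
  by_cases hgl : g = Fin.last (k + 1)
  · subst hgl
    have h1 := hout (1, i)
    rwa [iot, rename_X] at h1
  have iDom : IsDomain (MvPolynomial (Fin (k + 2) × Fin r) F ⧸ Q) := Ideal.Quotient.isDomain Q
  set mk : MvPolynomial (Fin (k + 2) × Fin r) F →ₐ[F] (MvPolynomial (Fin (k + 2) × Fin r) F ⧸ Q) :=
    Ideal.Quotient.mkₐ F Q with hmkdef
  have hmk : ∀ f, mk f = 0 ↔ f ∈ Q := fun f => Ideal.Quotient.eq_zero_iff_mem
  have hz : ∀ g' : Fin (k + 2), (∀ j, X (g', j) ∈ Q) →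
      ∀ p, mk (rho F g' p) = algebraMap F _ (constantCoeff p) := by
    intro g' hg' p
    have e1 : mk.comp (rho F g') = aeval (0 : Fin r → MvPolynomial (Fin (k + 2) × Fin r) F ⧸ Q) := by
      apply MvPolynomial.algHom_ext
      intro j
      rw [AlgHom.comp_apply, rho, rename_X, aeval_X, Pi.zero_apply, hmk]
      exact hg' j
    have e2 := AlgHom.congr_fun e1 p
    rw [aeval_zero] at e2
    exact e2
  have hz0 := hz 0 (by
    intro j
    have h1 := hout (0, j)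
    rwa [iot, rename_X] at h1)
  have hzl := hz (Fin.last (k + 1)) (by
    intro j
    have h1 := hout (1, j)
    rwa [iot, rename_X] at h1)
  let τ : MvPolynomial (Fin r) F →ₐ[F] (MvPolynomial (Fin (k + 2) × Fin r) F ⧸ Q) :=
    mk.comp (rho F g)
  have hτ : ∀ p, τ p = mk (rho F g p) := fun p => rfl
  let χ0 : Cq →ₐ[F] (MvPolynomial (Fin (k + 2) × Fin r) F ⧸ Q) :=
    AlgHom.liftOfSurjective π hπs τ (by
      intro p hp
      have hp' : π p = 0 := hp
      change τ p = 0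
      rw [hτ, hmk]
      exact hK (hker p hp' g))
  have hχ0 : ∀ p, χ0 (π p) = τ p := fun p => AlgHom.liftOfSurjective_apply π hπs τ _ p
  have key := hsmall _ (χ0.comp q) (by
    intro z hz
    obtain ⟨p, hp, hp'⟩ := lift_poly (ε := ε) q hb hgen π hπ z
    rw [AlgHom.comp_apply, ← hp, hχ0]
    have h1 := (hmk _).2 (hK (hrel g hg0 hgl z hz p hp.symm))
    rw [hz] at hp'
    rw [← h1, Prel, pivPoly, Finsupp.sum, Finsupp.sum, map_sum, map_sum]
    refine Finset.sum_congr rfl fun e _ => ?_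
    rw [map_smul, map_mul, map_mul, map_pow, map_pow, map_pow, hz0, hzl, hp', map_zero, ← hτ]
    obtain ⟨e1, e2, e3⟩ := e
    dsimp only
    rcases Nat.eq_zero_or_pos e1 with h1 | h1
    · rcases Nat.eq_zero_or_pos e3 with h3 | h3
      · subst h1 h3
        rw [if_pos ⟨rfl, rfl⟩, Polynomial.aeval_monomial, pow_zero, one_mul, mul_one]
        exact (Algebra.smul_def _ _).symm
      · rw [if_neg (by omega), map_zero, zero_pow (by omega : e3 ≠ 0), mul_zero, smul_zero]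
    · rw [if_neg (by omega), map_zero, zero_pow (by omega : e1 ≠ 0), zero_mul, zero_mul,
        smul_zero])
  have h2 := key (b i) (hb i)
  rw [AlgHom.comp_apply, ← hπ, hχ0, hτ, rho, rename_X, hmk] at h2
  exact h2

end

/-- Lemma S -/
theorem lemS {F C : Type} [Field F] [Finite F] [Ring C] [Algebra F C] (ε : C →ₐ[F] F)
    (r : ℕ) (b : Fin r → C) (hb : ∀ i, ε (b i) = 0) (hgen : Algebra.adjoin F (Set.range b) = ⊤)
    (h : C) (hm : Mono ε h) (hh : ∀ i, b i * h = 0 ∧ h * b i = 0)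
    (α : ℕ × ℕ × ℕ →₀ F) (n₀ : ℕ) (hn₀ : α (0, n₀, 0) ≠ 0)
    (hsmall : ∀ (K : Type) [CommRing K] [IsDomain K] [Algebra F K] (χ : C →ₐ[F] K),
      (∀ z, ε z = 0 → Polynomial.aeval (χ z) (pivPoly α) = 0) → ∀ z, ε z = 0 → χ z = 0)
    (k : ℕ) (hk : 1 ≤ k) (x : Fin k → C) (hx : ∀ i, ε (x i) = 0)
    (h1 : ∀ (u : Fin (k + 1) → C) (g : Fin (k + 1)), u g ∈ commIdeal C → TT x u = 0)
    (h2 : ∀ (u : Fin (k + 1) → C) (g : Fin (k + 1)), g ≠ 0 → g ≠ Fin.last k → ∀ z, ε z = 0 →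
      α.sum (fun e a => a • TT x (fun i => (if i = 0 then z ^ e.1 else 1) * u i *
        (if i = g then z ^ e.2.1 else 1) * (if i = Fin.last k then z ^ e.2.2 else 1))) = 0) :
    ∃ n, ∀ w : Fin (k + 1) → List (Fin r), n ≤ ∑ i, (w i).length →
      TT x (fun i => wd b (w i)) = 0 := by
  classical
  obtain ⟨k, rfl⟩ : ∃ k', k = k' + 1 := ⟨k - 1, by omega⟩
  obtain ⟨Cq, iC, iA, q, σ, hσ, hq⟩ := exists_comm_quot F C
  let π : MvPolynomial (Fin r) F →ₐ[F] Cq := aeval (fun i => q (b i))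
  have hπ : ∀ i, π (X i) = q (b i) := fun i => aeval_X _ _
  have hπs : Function.Surjective π := by
    intro y
    obtain ⟨p, hp, -⟩ := lift_poly (ε := ε) q hb hgen π hπ (σ y)
    exact ⟨p, by rw [hp, hσ]⟩
  have hΦ : PhiData F r k b ε (Phi σ x π) :=
    ⟨Phi_left q σ hσ hq π b hπ x h1, Phi_right q σ hσ hq π b hπ x h1, Phi_aug σ π ε x hx⟩
  obtain ⟨κ, hκ⟩ := pow_le_of_ass (kerId (Phi σ x π)) (Ideal.span (Set.range X)) (by
    intro w Q hQ hQw
    rw [Ideal.span_le]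
    rintro _ ⟨t, rfl⟩
    refine all_mem q hΦ hb hgen h hm hh α n₀ hn₀ hsmall π hπ hπs ?_ ?_ w Q hQ hQw t
    · intro p hp g y
      exact Phi_ker q σ hσ hq π x h1 p hp g y
    · intro g hg0 hgl z hz p hp y
      exact Phi_rel q σ hσ hq π ε α x h1 h2 g hg0 hgl z hz p hp y)
  refine ⟨κ, fun w hw => ?_⟩
  have e1 := Phi_eq q σ hσ hq π x h1 (fun g => ((w g).map X).prod) (fun g => wd b (w g)) (by
    intro g
    rw [wd, map_list_prod, map_list_prod, List.map_map, List.map_map]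
    congr 2
    funext i
    exact (hπ i).symm)
  rw [← e1, ← mul_one (∏ g, rho F g (List.map X (w g)).prod)]
  have e2 : (∏ g, rho F g (List.map X (w g)).prod) ∈
      (Ideal.span (Set.range X) : Ideal (MvPolynomial (Fin (k + 2) × Fin r) F)) ^ (∑ i, (w i).length) := by
    rw [← Finset.prod_pow_eq_pow_sum]
    apply Ideal.prod_mem_prod
    intro g _
    rw [map_list_prod, List.map_map]
    generalize w g = l
    induction l with
    | nil => simp
    | cons a l ih =>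
      rw [List.map_cons, List.prod_cons, List.length_cons, pow_succ']
      apply Ideal.mul_mem_mul _ ih
      rw [Function.comp_apply, rho, rename_X]
      exact Ideal.subset_span ⟨_, rfl⟩
  exact hκ (Ideal.pow_le_pow_right hw e2) 1

end Pool.Agent.TH37.RF
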