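import Pool.Agent.TH908.RF_RFCUT

/-! Pointwise version of `rf_of_cut` (proof by helper908). -/

set_option autoImplicit false

namespace Pool.Agent.TH37.RF

open Pool.Agent.TH908.RFCUT

/-- `a` survives in a finite quotient -/
def Sep (F : Type) {C : Type} [Field F] [Ring C] [Algebra F C] (a : C) : Prop :=
  ∃ (Q : Type) (_ : Ring Q) (_ : Algebra F Q) (_ : Finite Q) (φ : C →ₐ[F] Q), φ a ≠ 0

theorem sep_of_cut {F C Q : Type} [Field F] [Ring C] [Algebra F C] [Ring Q] [Algebra F Q] [Finite F]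
    [Finite Q] (ε : C →ₐ[F] F) (φ : C →ₐ[F] Q) (a : C) (haJ : a ∈ JJ ε φ)
    (h : Sep F (⟨a, mem_Cut_of haJ⟩ : Cut ε φ)) : Sep F a := by
  obtain ⟨Q', _, _, _, φ', hφ'⟩ := h
  have : Finite (Q × F) := inferInstance
  have hJfin : (JJ ε φ).FiniteIndex := by
    unfold JJ
    exact AddSubgroup.finiteIndex_ker _
  have : Finite (C ⧸ JJ ε φ) := AddSubgroup.finite_quotient_of_finiteIndex
  -- the additive map on J
  let Θ₁ : JJ ε φ →+ ((C ⧸ JJ ε φ) → Q') :=
    { toFun := fun x r => φ' ⟨r.out * x.1, mem_Cut_of (mul_mem_JJ _ x.2)⟩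
      map_zero' := by
        funext r
        have : (⟨r.out * ((0 : JJ ε φ) : C), mem_Cut_of (mul_mem_JJ _ (0 : JJ ε φ).2)⟩ :
          Cut ε φ) = 0 := by
          apply Subtype.ext
          simp
        rw [this, map_zero]
        rfl
      map_add' := by
        intro x y
        funext r
        have : (⟨r.out * ((x + y : JJ ε φ) : C), mem_Cut_of (mul_mem_JJ _ (x + y).2)⟩ :
          Cut ε φ) = ⟨r.out * x.1, mem_Cut_of (mul_mem_JJ _ x.2)⟩ +
            ⟨r.out * y.1, mem_Cut_of (mul_mem_JJ _ y.2)⟩ := by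
          apply Subtype.ext
          simp [mul_add]
        rw [this, map_add]
        rfl }
  let Θ₂ : JJ ε φ →+ Q' :=
    { toFun := fun x => φ' ⟨x.1, mem_Cut_of x.2⟩
      map_zero' := by
        have : (⟨((0 : JJ ε φ) : C), mem_Cut_of (0 : JJ ε φ).2⟩ : Cut ε φ) = 0 := rfl
        rw [this, map_zero]
      map_add' := by
        intro x y
        have : (⟨((x + y : JJ ε φ) : C), mem_Cut_of (x + y).2⟩ : Cut ε φ) =
          ⟨x.1, mem_Cut_of x.2⟩ + ⟨y.1, mem_Cut_of y.2⟩ := rfl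
        rw [this, map_add] }
  have hΘ : (Θ₁.prod Θ₂).ker.FiniteIndex := AddSubgroup.finiteIndex_ker _
  have hsub : ∀ x : JJ ε φ, x ∈ (Θ₁.prod Θ₂).ker → (x : C) ∈ LL ε φ φ' := by
    intro x hx
    refine ⟨x.2, fun u => ?_⟩
    rw [AddMonoidHom.mem_ker, AddMonoidHom.prod_apply, Prod.mk_eq_zero] at hx
    have h3 := congrFun hx.1 (QuotientAddGroup.mk u)
    have h4 : φ' ⟨(QuotientAddGroup.mk u : C ⧸ JJ ε φ).out * x.1,
      mem_Cut_of (mul_mem_JJ _ x.2)⟩ = 0 := h3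
    have h6 : φ' ⟨x.1, mem_Cut_of x.2⟩ = 0 := hx.2
    set r := (QuotientAddGroup.mk u : C ⧸ JJ ε φ).out with hr
    have hj : -r + u ∈ JJ ε φ := by
      rw [← QuotientAddGroup.eq]
      rw [hr]
      exact QuotientAddGroup.out_eq' _
    have h5 : (⟨u * x.1, mem_Cut_of (mul_mem_JJ u x.2)⟩ : Cut ε φ) =
        ⟨r * x.1, mem_Cut_of (mul_mem_JJ _ x.2)⟩ +
          ⟨-r + u, mem_Cut_of hj⟩ * ⟨x.1, mem_Cut_of x.2⟩ := by
      apply Subtype.ext
      simp only [Subalgebra.coe_add, Subalgebra.coe_mul]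
      noncomm_ring
    rw [h5, map_add, map_mul, h4, h6, mul_zero, add_zero]
  have hle : (LL ε φ φ').toAddSubgroup ≤ JJ ε φ := fun x hx => hx.1
  have hrel : ((LL ε φ φ').toAddSubgroup).relIndex (JJ ε φ) ≠ 0 := by
    have h7 : (Θ₁.prod Θ₂).ker ≤ ((LL ε φ φ').toAddSubgroup).addSubgroupOf (JJ ε φ) := by
      intro x hx
      rw [AddSubgroup.mem_addSubgroupOf]
      exact hsub x hx
    have h8 : (((LL ε φ φ').toAddSubgroup).addSubgroupOf (JJ ε φ)).FiniteIndex :=
      AddSubgroup.finiteIndex_of_le h7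
    exact h8.index_ne_zero
  have hfi : ((LL ε φ φ').toAddSubgroup).FiniteIndex := by
    constructor
    rw [← AddSubgroup.relIndex_mul_index hle]
    exact mul_ne_zero hrel hJfin.index_ne_zero
  have hM : Finite (C ⧸ LL ε φ φ') :=
    AddSubgroup.finite_quotient_of_finiteIndex (H := (LL ε φ φ').toAddSubgroup)
  have hE : Finite (Module.End F (C ⧸ LL ε φ φ')) :=
    Finite.of_injective (fun f : Module.End F (C ⧸ LL ε φ φ') => (f : _ → _))
      DFunLike.coe_injective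
  refine ⟨Module.End F (C ⧸ LL ε φ φ'), inferInstance, inferInstance, hE,
    Algebra.lsmul F F (C ⧸ LL ε φ φ'), ?_⟩
  intro h0
  have h9 : (Algebra.lsmul F F (C ⧸ LL ε φ φ') a) (Submodule.Quotient.mk 1) = 0 := by
    rw [h0]; rfl
  have h9' : (Submodule.Quotient.mk (a • 1) : C ⧸ LL ε φ φ') = 0 := h9
  rw [Submodule.Quotient.mk_eq_zero] at h9'
  obtain ⟨h10, h11⟩ := h9'
  have h12 := h11 1
  apply hφ'
  rw [← h12]
  congr 1
  apply Subtype.ext
  simp

end Pool.Agent.TH37.RF
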