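import Pool.Agent.TH37.RF.Asm1
import Pool.Agent.TH37.RF.LemS5
import Pool.Agent.TH37.RF.SepCut
import Pool.Agent.TH635.RF_CORE
import Pool.Agent.TH511.RF_CHAR
import Pool.Agent.TH908.RF_CUTFG
import Pool.Agent.TH279.RF_ZORN

/-! Assembly, part 2: good algebras are residually finite. -/

set_option autoImplicit false

namespace Pool.Agent.TH37.RF

theorem zword_injective : Function.Injective zword := by
  intro e e' h
  obtain ⟨a, b, c⟩ := e
  obtain ⟨a', b', c'⟩ := e'
  have key : ∀ (n n' : ℕ) (s : Fin 3) (l l' : List (Fin 3)), s ≠ 2 →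
      List.replicate n 2 ++ s :: l = List.replicate n' 2 ++ s :: l' → n = n' ∧ l = l' := by
    intro n
    induction n with
    | zero =>
      intro n' s l l' hs h
      cases n' with
      | zero => simpa using h
      | succ n' =>
        rw [List.replicate_zero, List.nil_append, List.replicate_succ, List.cons_append,
          List.cons.injEq] at h
        exact absurd h.1 hs
    | succ n ih =>
      intro n' s l l' hs h
      cases n' with
      | zero =>
        rw [List.replicate_zero, List.nil_append, List.replicate_succ, List.cons_append,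
          List.cons.injEq] at h
        exact absurd h.1.symm hs
      | succ n' =>
        rw [List.replicate_succ, List.replicate_succ, List.cons_append, List.cons_append,
          List.cons.injEq] at h
        obtain ⟨h1, h2⟩ := ih n' s l l' hs h.2
        exact ⟨by rw [h1], h2⟩
  obtain ⟨h1, h2⟩ := key _ _ _ _ _ (by decide) h
  obtain ⟨h3, h4⟩ := key _ _ _ _ _ (by decide) h2
  have h5 := congrArg List.length h4
  rw [List.length_replicate, List.length_replicate] at h5
  simp only at h1 h3 h5
  subst h1 h3 h5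
  rfl

/-- the coefficients of the words `z ^ i x z ^ j y z ^ k` -/
noncomputable def alphaOf {F : Type} [Field F] (c : List (Fin 3) →₀ F) : ℕ × ℕ × ℕ →₀ F :=
  c.comapDomain zword zword_injective.injOn

theorem alphaOf_apply {F : Type} [Field F] (c : List (Fin 3) →₀ F) (e : ℕ × ℕ × ℕ) :
    alphaOf c e = c (zword e) := rfl

theorem alphaOf_piv {F : Type} [Field F] (c : List (Fin 3) →₀ F) (hc : Cond c) :
    ∃ n₀, alphaOf c (0, n₀, 0) ≠ 0 := by
  obtain ⟨n, hn⟩ := hc.piv
  refine ⟨n, ?_⟩
  rw [alphaOf_apply, zword]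
  exact hn

theorem pivPoly_coeff {F : Type} [Field F] (α : ℕ × ℕ × ℕ →₀ F) (n : ℕ) :
    (pivPoly α).coeff n = α (0, n, 0) := by
  classical
  rw [pivPoly, Finsupp.sum, Polynomial.finsetSum_coeff]
  by_cases h : (0, n, 0) ∈ α.support
  · rw [Finset.sum_eq_single_of_mem _ h]
    · rw [if_pos ⟨rfl, rfl⟩, Polynomial.coeff_monomial_same]
    · rintro ⟨a, b, c⟩ _ hne
      split_ifs with h1
      · obtain ⟨h2, h3⟩ := h1
        simp only at h2 h3
        subst h2 h3
        rw [Polynomial.coeff_monomial, if_neg]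
        rintro rfl
        exact hne rfl
      · exact Polynomial.coeff_zero _
  · rw [Finsupp.notMem_support_iff.1 h]
    apply Finset.sum_eq_zero
    rintro ⟨a, b, c⟩ he
    split_ifs with h1
    · obtain ⟨h2, h3⟩ := h1
      simp only at h2 h3
      subst h2 h3
      rw [Polynomial.coeff_monomial, if_neg]
      rintro rfl
      exact h he
    · exact Polynomial.coeff_zero _

theorem pivPoly_ne {F : Type} [Field F] (α : ℕ × ℕ × ℕ →₀ F) (n₀ : ℕ) (h : α (0, n₀, 0) ≠ 0) :
    pivPoly α ≠ 0 := by
  intro h0
  apply h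
  rw [← pivPoly_coeff, h0, Polynomial.coeff_zero]

section

variable {F C : Type} [Field F] [Ring C] [Algebra F C]

/-- nilpotent and finitely generated implies finite -/
theorem finite_of_words [Finite F] {r : ℕ} (b : Fin r → C)
    (hgen : Algebra.adjoin F (Set.range b) = ⊤)
    (h : ∃ n, ∀ w : List (Fin r), n ≤ w.length → wd b w = 0) : Finite C := by
  obtain ⟨n, hn⟩ := h
  have hfin : {w : List (Fin r) | w.length < n}.Finite := List.finite_length_lt (Fin r) n
  let S : Set C := wd b '' {w : List (Fin r) | w.length < n}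
  have hS : S.Finite := hfin.image _
  have h1 : Submodule.span F S = ⊤ := by
    rw [eq_top_iff]
    intro x _
    have hx : x ∈ Algebra.adjoin F (Set.range b) := by rw [hgen]; trivial
    rw [← Subalgebra.mem_toSubmodule, Algebra.adjoin_eq_span] at hx
    refine Submodule.span_le.2 ?_ hx
    intro y hy
    have h2 : ∃ w, y = wd b w := by
      induction hy using Submonoid.closure_induction with
      | mem y hy =>
        obtain ⟨i, rfl⟩ := hy
        exact ⟨[i], by simp [wd]⟩
      | one => exact ⟨[], by simp [wd]⟩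
      | mul y z _ _ hy hz =>
        obtain ⟨w, rfl⟩ := hy
        obtain ⟨w', rfl⟩ := hz
        exact ⟨w ++ w', by simp [wd]⟩
    obtain ⟨w, rfl⟩ := h2
    by_cases hw : w.length < n
    · exact Submodule.subset_span ⟨w, hw, rfl⟩
    · rw [hn w (not_lt.1 hw)]
      exact Submodule.zero_mem _
  have h3 : Module.Finite F C := ⟨⟨hS.toFinset, by rw [Set.Finite.coe_toFinset, h1]⟩⟩
  exact Module.finite_of_finite F

theorem core [Finite F] (ε : C →ₐ[F] F) (c : List (Fin 3) →₀ F) (hc : Cond c) (hG : Good c ε)
    (h : C) (hm : Mono ε h) (hh : ∀ z, ε z = 0 → z * h = 0 ∧ h * z = 0)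
    (hsmall : ∀ (K : Type) [CommRing K] [IsDomain K] [Algebra F K] (χ : C →ₐ[F] K),
      (∀ z, ε z = 0 → Polynomial.aeval (χ z) (pivPoly (alphaOf c)) = 0) → ∀ z, ε z = 0 → χ z = 0) :
    Finite C := by
  obtain ⟨r, b, hb, hgen⟩ := hG.fg
  obtain ⟨n₀, hn₀⟩ := alphaOf_piv c hc
  apply finite_of_words b hgen
  apply Pool.Agent.TH635.RFCore.core_words ε r b hb hgen hG.nil c hc hG.ident (alphaOf c)
    (alphaOf_apply c)
  intro k x hk hx h1 h2
  exact lemS ε r b hb hgen h hm (fun i => hh _ (hb i)) (alphaOf c) n₀ hn₀ hsmall k hk x hx h1 h2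

end

end Pool.Agent.TH37.RF
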