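import Pool.Agent.TH37.RF.Asm2

/-! Assembly, part 3: good algebras are residually finite. -/

set_option autoImplicit false

namespace Pool.Agent.TH37.RF

/-- statement of job ANN -/
def AnnStmt : Prop := ∀ (F C : Type) [Field F] [Finite F] [Ring C] [Algebra F C] (ε : C →ₐ[F] F)
    (_ : FGen ε) (_ : NilpId (commIdeal C)) (h : C) (_ : Mono ε h),
    ∃ (Q : Type) (_ : Ring Q) (_ : Algebra F Q) (_ : Finite Q) (φ : C →ₐ[F] Q),
      ∀ b, φ b = 0 → b * h = 0 ∧ h * b = 0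

section

variable {F C : Type} [Field F] [Ring C] [Algebra F C]

theorem sep_map {C' : Type} [Ring C'] [Algebra F C'] (π : C →ₐ[F] C') (a : C)
    (h : Sep F (π a)) : Sep F a := by
  obtain ⟨Q, iQ, iA, iF, φ, hφ⟩ := h
  exact ⟨Q, iQ, iA, iF, φ.comp π, hφ⟩

theorem mem_cut {Q : Type} [Ring Q] [Algebra F Q] (ε : C →ₐ[F] F) (φ : C →ₐ[F] Q)
    (z : Cut ε φ) (hz : cutε ε φ z = 0) : φ (z : C) = 0 := by
  have h1 : φ (z : C) = (Algebra.ofId F Q) (ε (z : C)) := z.2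
  have h2 : ε (z : C) = 0 := hz
  rw [h1, h2, map_zero]

theorem good_sep_mono (hann : AnnStmt) [Finite F] (ε : C →ₐ[F] F) (c : List (Fin 3) →₀ F)
    (hc : Cond c) (hG : Good c ε) (a : C) (hm : Mono ε a) : Sep F a := by
  obtain ⟨Q1, iR1, iA1, iF1, φ1, hφ1⟩ := hann F C ε hG.fg hG.nil a hm
  obtain ⟨Q2, iR2, iA2, iF2, φ2, hφ2⟩ := Pool.Agent.TH511.RF_CHAR.no_small ε hG.fg
    (pivPoly (alphaOf c)).natDegree
  let φ : C →ₐ[F] Q1 × Q2 := φ1.prod φ2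
  have hp : ∀ x, φ x = (φ1 x, φ2 x) := fun x => rfl
  by_cases h0 : φ a = 0
  swap
  · exact ⟨Q1 × Q2, inferInstance, inferInstance, inferInstance, φ, h0⟩
  have haJ : a ∈ Pool.Agent.TH908.RFCUT.JJ ε φ := Pool.Agent.TH908.RFCUT.mem_JJ.2 ⟨h0, hm.aug⟩
  apply sep_of_cut ε φ a haJ
  have hGC : Good c (cutε ε φ) :=
    ⟨Pool.Agent.TH908.CUTFG.cut_fg ε hG.fg φ,
      nilp_inj (Cut ε φ).val Subtype.val_injective hG.nil,
      ident_inj c ε (cutε ε φ) (Cut ε φ).val Subtype.val_injective (fun x => rfl) hG.ident⟩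
  obtain ⟨C2, iR, iA, ε2, π2, hπ2, hε2, hm2⟩ := Pool.Agent.TH279.RFZorn.exists_mono (cutε ε φ)
    (⟨a, Pool.Agent.TH908.RFCUT.mem_Cut_of haJ⟩ : Cut ε φ)
    (fun h => hm.ne (congrArg Subtype.val h)) hm.aug
  have hG2 : Good c ε2 := good_map c (cutε ε φ) ε2 π2 hπ2 hε2 hGC
  have hfin : Finite C2 := by
    apply core ε2 c hc hG2 _ hm2
    · intro z hz
      obtain ⟨z, rfl⟩ := hπ2 z
      rw [hε2] at hz
      have h1 := mem_cut ε φ z hz
      rw [hp, Prod.mk_eq_zero] at h1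
      obtain ⟨h2, h3⟩ := hφ1 _ h1.1
      rw [← map_mul, ← map_mul]
      constructor
      · have e1 : z * (⟨a, Pool.Agent.TH908.RFCUT.mem_Cut_of haJ⟩ : Cut ε φ) = 0 :=
          Subtype.ext h2
        rw [e1, map_zero]
      · have e1 : (⟨a, Pool.Agent.TH908.RFCUT.mem_Cut_of haJ⟩ : Cut ε φ) * z = 0 :=
          Subtype.ext h3
        rw [e1, map_zero]
    · intro K _ _ _ χ hχ z hz
      obtain ⟨n₀, hn₀⟩ := alphaOf_piv c hc
      obtain ⟨z, rfl⟩ := hπ2 z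
      rw [hε2] at hz
      refine hφ2 (Q1 × Q2) φ ?_ K (χ.comp π2) (pivPoly (alphaOf c)) (pivPoly_ne _ n₀ hn₀) le_rfl
        ?_ z hz
      · intro x hx
        rw [hp, Prod.mk_eq_zero] at hx
        exact hx.2
      · intro z' hz'
        exact hχ (π2 z') (by rw [hε2, hz'])
  exact ⟨C2, iR, iA, hfin, π2, hm2.ne⟩

theorem good_rf (hann : AnnStmt) [Finite F] (ε : C →ₐ[F] F) (c : List (Fin 3) →₀ F)
    (hc : Cond c) (hG : Good c ε) : ResFin F C := by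
  intro a ha
  by_cases hεa : ε a = 0
  swap
  · exact ⟨F, inferInstance, inferInstance, inferInstance, ε, hεa⟩
  obtain ⟨C1, iR, iA, ε1, π1, hπ1, hε1, hm1⟩ := Pool.Agent.TH279.RFZorn.exists_mono ε a ha hεa
  exact sep_map π1 a (good_sep_mono hann ε1 c hc (good_map c ε ε1 π1 hπ1 hε1 hG) (π1 a) hm1)

end

end Pool.Agent.TH37.RF
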