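import Pool.Agent.TH37.RF.Asm1
import Pool.Agent.TH37.RF.SH1
import Pool.Agent.TH142.RF.SH2
import Pool.Agent.TH644.RF_TRACE
import Pool.Agent.TH28.RF_DETECT
import Pool.Agent.TH858.RF_BOUND1
import Pool.Agent.TH858.RF_BOUND2
import Pool.Agent.TH511.RF_SMALLREP
import Pool.Agent.TH908.RF_CUTFG
import Pool.Agent.H67.PI.Lin

/-! Assembly, part 4: a cofinite subalgebra is good. -/

set_option autoImplicit false

namespace Pool.Agent.TH37.RF

section

variable {F C : Type} [Field F] [Ring C] [Algebra F C]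

theorem exists_lin (ε : C →ₐ[F] F) (c : List (Fin 3) →₀ F) (hc : Cond c) (hid : Ident c ε) :
    ∃ (d : ℕ) (e : Equiv.Perm (Fin d) → F), e 1 = 1 ∧
      ∀ a : Fin d → C, (∀ i, ε (a i) = 0) →
        ∑ τ, e τ • (List.ofFn fun k => a (τ k)).prod = 0 := by
  obtain ⟨n, hn⟩ := hc.piv
  set f : FreeAlgebra F (Fin 3) := c.sum fun w a => a • (w.map (FreeAlgebra.ι F)).prod with hf
  have hf0 : f ≠ 0 := by
    intro h0
    apply hn
    set w0 : List (Fin 3) := 0 :: (List.replicate n 2 ++ [1])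
    have h1 : (FreeAlgebra.basisFreeMonoid F (Fin 3)).repr f = c.mapDomain FreeMonoid.ofList := by
      rw [hf, Finsupp.sum, map_sum, Finsupp.mapDomain, Finsupp.sum]
      refine Finset.sum_congr rfl fun w _ => ?_
      have h2 := Pool.Agent.H67.PI.basis_eq (F := F) (FreeMonoid.ofList w)
      rw [FreeMonoid.toList_ofList] at h2
      rw [← h2, map_smul, Module.Basis.repr_self, Finsupp.smul_single, smul_eq_mul, mul_one]
    rw [h0, map_zero] at h1
    have h3 : (c.mapDomain FreeMonoid.ofList) (FreeMonoid.ofList w0) = c w0 :=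
      Finsupp.mapDomain_apply FreeMonoid.ofList.injective _ _
    rw [← h3, ← h1]
    rfl
  obtain ⟨d, e, he, h⟩ := Pool.Agent.H67.PI.linearise (F := F) (C := C)
    (LinearMap.ker ε.toLinearMap) f hf0 (by
      intro a ha
      have h1 := hid (a 0) (a 1) (a 2) (ha 0) (ha 1) (ha 2)
      rw [← h1, hf, ev3, Finsupp.sum, Finsupp.sum, map_sum]
      refine Finset.sum_congr rfl fun w _ => ?_
      rw [map_smul, map_list_prod, List.map_map]
      congr 3
      funext i
      rw [Function.comp_apply, FreeAlgebra.lift_ι_apply]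
      fin_cases i <;> rfl)
  exact ⟨d, e, he, fun a ha => h a ha⟩

theorem mat_top (ε : C →ₐ[F] F) {n : ℕ} {D : Type} [Field D] [Algebra F D]
    (ψ : C →ₐ[F] Matrix (Fin n) (Fin n) D) (hψ : Function.Surjective ψ) (β : C) (hβ : ε β = 0)
    (hψβ : ψ β ≠ 0) (M : Matrix (Fin n) (Fin n) D) : ∃ x, ε x = 0 ∧ ψ x = M := by
  have hne : Nonempty (Fin n) := by
    by_contra h
    rw [not_nonempty_iff] at h
    apply hψβ
    ext i
    exact h.elim i
  let I : TwoSidedIdeal (Matrix (Fin n) (Fin n) D) := TwoSidedIdeal.mk' {M | ∃ x, ε x = 0 ∧ ψ x = M}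
    ⟨0, map_zero _, map_zero _⟩
    (by
      rintro _ _ ⟨u, hu, rfl⟩ ⟨v, hv, rfl⟩
      exact ⟨u + v, by rw [map_add, hu, hv, add_zero], map_add _ _ _⟩)
    (by
      rintro _ ⟨u, hu, rfl⟩
      exact ⟨-u, by rw [map_neg, hu, neg_zero], map_neg _ _⟩)
    (by
      rintro c _ ⟨u, hu, rfl⟩
      obtain ⟨c, rfl⟩ := hψ c
      exact ⟨c * u, by rw [map_mul, hu, mul_zero], map_mul _ _ _⟩)
    (by
      rintro _ c ⟨u, hu, rfl⟩
      obtain ⟨c, rfl⟩ := hψ c
      exact ⟨u * c, by rw [map_mul, hu, zero_mul], map_mul _ _ _⟩)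
  have hI : ∀ M, M ∈ I ↔ ∃ x, ε x = 0 ∧ ψ x = M :=
    fun x => TwoSidedIdeal.mem_mk' _ _ _ _ _ _ x
  rcases eq_bot_or_eq_top I with h | h
  · exfalso
    apply hψβ
    have h1 : ψ β ∈ I := (hI _).2 ⟨β, hβ, rfl⟩
    rw [h, TwoSidedIdeal.mem_bot] at h1
    exact h1
  · rw [← hI, h]
    trivial

theorem two_le {n : ℕ} {D : Type} [Field D] [Algebra F D]
    (ψ : C →ₐ[F] Matrix (Fin n) (Fin n) D) (β : C) (hβ : β ∈ commIdeal C)
    (hψβ : ψ β ≠ 0) : 2 ≤ n := by
  by_contra hn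
  have hs : Subsingleton (Fin n) := by
    have : n = 0 ∨ n = 1 := by omega
    rcases this with rfl | rfl <;> infer_instance
  have hcomm : ∀ M N : Matrix (Fin n) (Fin n) D, M * N = N * M := by
    intro M N
    ext i j
    rw [Matrix.mul_apply, Matrix.mul_apply, Fintype.sum_subsingleton _ i,
      Fintype.sum_subsingleton _ i, Subsingleton.elim j i, mul_comm]
  apply hψβ
  have h1 := commIdeal_image ψ β hβ
  have h2 : commIdeal (Matrix (Fin n) (Fin n) D) ≤ ⊥ := by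
    rw [commIdeal, TwoSidedIdeal.span_le]
    rintro _ ⟨u, v, rfl⟩
    rw [hcomm, sub_self]
    exact TwoSidedIdeal.zero_mem _
  exact (TwoSidedIdeal.mem_bot _).1 (h2 h1)

theorem pow_fact {D : Type} [Field D] [Finite D] (d0 : ℕ) (h : Nat.card D ≤ d0) (t : D) :
    t ^ (d0.factorial + 1) = t := by
  have : Fintype D := Fintype.ofFinite D
  rw [Nat.card_eq_fintype_card] at h
  have h1 : 1 < Fintype.card D := Fintype.one_lt_card
  by_cases ht : t = 0
  · subst ht
    rw [zero_pow (by omega)]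
  obtain ⟨e, he⟩ : Fintype.card D - 1 ∣ d0.factorial := Nat.dvd_factorial (by omega) (by omega)
  rw [pow_succ, he, pow_mul, FiniteField.pow_card_sub_one_eq_one t ht, one_pow, one_mul]

theorem exists_nil [Finite F] (ε : C →ₐ[F] F) (hfg : FGen ε) (c : List (Fin 3) →₀ F) (hc : Cond c)
    (hid : Ident c ε) :
    ∃ (Q : Type) (_ : Ring Q) (_ : Algebra F Q) (_ : Finite Q) (φ : C →ₐ[F] Q),
      ∀ β, ε β = 0 → φ β = 0 → β ∈ commIdeal C → IsNilpotent β := by
  obtain ⟨d, e, he, hlin⟩ := exists_lin ε c hc hid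
  obtain ⟨d0, hd0⟩ := Pool.Agent.TH858.RF.bound_card c hc
  obtain ⟨Q, iR, iA, iF, φ, hφ⟩ := Pool.Agent.TH511.RF_SMALLREP.small_rep ε hfg d d0.factorial
    (Nat.factorial_pos d0)
  refine ⟨Q, iR, iA, iF, φ, fun β hβ hφβ hcβ => ?_⟩
  by_contra hn
  have hPI : Pool.Agent.H854R3.CR.PIOn {x : C | ε x = 0} :=
    Pool.Agent.TH644.RFTRACE.trace_PI (LinearMap.ker ε.toLinearMap) d e he
      (fun a ha => hlin a ha)
  obtain ⟨n, D, iD, iDF, iDA, ψ, hψ, hψβ⟩ := Pool.Agent.TH28.RFDetect.detect ε hfg hPI β hβ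
    (fun k hk => hn ⟨k, hk⟩)
  have hn2 : 2 ≤ n := two_le ψ β hcβ hψβ
  have htop := mat_top ε ψ hψ β hβ hψβ
  have hcard : Nat.card D ≤ d0 := hd0 n D hn2 (by
    intro x y z
    obtain ⟨x, hx, rfl⟩ := htop x
    obtain ⟨y, hy, rfl⟩ := htop y
    obtain ⟨z, hz, rfl⟩ := htop z
    rw [← ev3_map, hid x y z hx hy hz, map_zero])
  have hsize : n ≤ d := Pool.Agent.TH858.RF.bound_size (F := F) (D := D) n d e he (by
    intro a
    choose a' ha' haa' using fun i => htop (a i)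
    have h1 := congrArg ψ (hlin a' ha')
    rw [map_zero, map_sum] at h1
    rw [← h1]
    refine Finset.sum_congr rfl fun τ _ => ?_
    rw [map_smul, map_list_prod, List.map_ofFn]
    congr 3
    funext k
    exact (haa' _).symm)
  exact hψβ (hφ n D ψ hsize (pow_fact d0 hcard) β hφβ)

end

end Pool.Agent.TH37.RF
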