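import Pool.Agent.TH37.RF.Asm4
import Pool.Agent.TH37.RF.Asm3
import Pool.Agent.TH908.RF_RFCUT
import Pool.Agent.TH788.RF_ANN

/-! Assembly, part 5: main theorem for augmented algebras. -/

set_option autoImplicit false

namespace Pool.Agent.TH37.RF

section words

variable {F C : Type} [Field F] [Ring C] [Algebra F C]

/-- letters: the generators and their commutators -/
def vv {s : ℕ} (b : Fin s → C) : Fin s ⊕ (Fin s × Fin s) → C :=
  Sum.elim b fun p => b p.1 * b p.2 - b p.2 * b p.1

/-- marked letters: the commutators -/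
def mk {s : ℕ} : Fin s ⊕ (Fin s × Fin s) → Bool := Sum.elim (fun _ => false) fun _ => true

theorem wd_append {Λ : Type} (v : Λ → C) (w w' : List Λ) : wd v (w ++ w') = wd v w * wd v w' := by
  simp [wd]

/-- span of the words with at least `j` marked letters -/
def PP (F : Type) {C : Type} [Field F] [Ring C] [Algebra F C] {s : ℕ} (b : Fin s → C) (j : ℕ) :
    Submodule F C :=
  Submodule.span F {x | ∃ w : List (Fin s ⊕ (Fin s × Fin s)), j ≤ w.countP mk ∧ wd (vv b) w = x}

theorem PP_mul {s : ℕ} (b : Fin s → C) (i j : ℕ) (x y : C) (hx : x ∈ PP F b i) (hy : y ∈ PP F b j) :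
    x * y ∈ PP F b (i + j) := by
  induction hx using Submodule.span_induction with
  | mem x hx =>
    obtain ⟨w, hw, rfl⟩ := hx
    induction hy using Submodule.span_induction with
    | mem y hy =>
      obtain ⟨w', hw', rfl⟩ := hy
      refine Submodule.subset_span ⟨w ++ w', ?_, wd_append _ _ _⟩
      rw [List.countP_append]
      omega
    | zero => rw [mul_zero]; exact Submodule.zero_mem _
    | add y z _ _ hy hz => rw [mul_add]; exact Submodule.add_mem _ hy hz
    | smul a y _ hy => rw [mul_smul_comm]; exact Submodule.smul_mem _ _ hy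
  | zero => rw [zero_mul]; exact Submodule.zero_mem _
  | add y z _ _ hy hz => rw [add_mul]; exact Submodule.add_mem _ hy hz
  | smul a y _ hy => rw [smul_mul_assoc]; exact Submodule.smul_mem _ _ hy

theorem PP_zero {s : ℕ} (b : Fin s → C) (hgen : Algebra.adjoin F (Set.range b) = ⊤) (x : C) :
    x ∈ PP F b 0 := by
  have hx : x ∈ Algebra.adjoin F (Set.range b) := by rw [hgen]; trivial
  induction hx using Algebra.adjoin_induction with
  | mem x hx =>
    obtain ⟨i, rfl⟩ := hx
    exact Submodule.subset_span ⟨[Sum.inl i], Nat.zero_le _, by simp [wd, vv]⟩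
  | algebraMap a =>
    rw [Algebra.algebraMap_eq_smul_one]
    exact Submodule.smul_mem _ _ (Submodule.subset_span ⟨[], Nat.zero_le _, by simp [wd]⟩)
  | add x y _ _ hx hy => exact Submodule.add_mem _ hx hy
  | mul x y _ _ hx hy => exact PP_mul b 0 0 x y hx hy

theorem comm_PP {s : ℕ} (b : Fin s → C) (hgen : Algebra.adjoin F (Set.range b) = ⊤) (x : C)
    (hx : x ∈ commIdeal C) : x ∈ PP F b 1 := by
  let I : TwoSidedIdeal C := TwoSidedIdeal.mk' (PP F b 1 : Set C)
    (PP F b 1).zero_mem
    (fun hx hy => (PP F b 1).add_mem hx hy)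
    (fun hx => (PP F b 1).neg_mem hx)
    (by
      intro x y hy
      have := PP_mul b 0 1 x y (PP_zero b hgen x) hy
      rwa [Nat.zero_add] at this)
    (by
      intro x y hx
      have := PP_mul b 1 0 x y hx (PP_zero b hgen y)
      exact this)
  have hI : ∀ x, x ∈ I ↔ x ∈ PP F b 1 := fun x => TwoSidedIdeal.mem_mk' _ _ _ _ _ _ x
  have h1 : ∀ i (v : C), b i * v - v * b i ∈ I := by
    intro i v
    have hv : v ∈ Algebra.adjoin F (Set.range b) := by rw [hgen]; trivial
    induction hv using Algebra.adjoin_induction with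
    | mem v hv =>
      obtain ⟨j, rfl⟩ := hv
      rw [hI]
      exact Submodule.subset_span ⟨[Sum.inr (i, j)], by simp [mk], by simp [wd, vv]⟩
    | algebraMap a =>
      rw [Algebra.commutes, sub_self]
      exact I.zero_mem
    | add x y _ _ hx hy =>
      have : b i * (x + y) - (x + y) * b i = (b i * x - x * b i) + (b i * y - y * b i) := by
        noncomm_ring
      rw [this]
      exact I.add_mem hx hy
    | mul x y _ _ hx hy =>
      have : b i * (x * y) - (x * y) * b i = (b i * x - x * b i) * y + x * (b i * y - y * b i) := by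
        noncomm_ring
      rw [this]
      exact I.add_mem (I.mul_mem_right _ _ hx) (I.mul_mem_left _ _ hy)
  have h2 : ∀ u v : C, u * v - v * u ∈ I := by
    intro u v
    have hu : u ∈ Algebra.adjoin F (Set.range b) := by rw [hgen]; trivial
    induction hu using Algebra.adjoin_induction with
    | mem u hu =>
      obtain ⟨j, rfl⟩ := hu
      exact h1 j v
    | algebraMap a =>
      rw [Algebra.commutes, sub_self]
      exact I.zero_mem
    | add x y _ _ hx hy =>
      have : (x + y) * v - v * (x + y) = (x * v - v * x) + (y * v - v * y) := by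
        noncomm_ring
      rw [this]
      exact I.add_mem hx hy
    | mul x y _ _ hx hy =>
      have : (x * y) * v - v * (x * y) = (x * v - v * x) * y + x * (y * v - v * y) := by
        noncomm_ring
      rw [this]
      exact I.add_mem (I.mul_mem_right _ _ hx) (I.mul_mem_left _ _ hy)
  have h3 : commIdeal C ≤ I := by
    rw [commIdeal, TwoSidedIdeal.span_le]
    rintro _ ⟨u, v, rfl⟩
    exact h2 u v
  exact (hI x).1 (h3 hx)

theorem nilp_of_words {s : ℕ} (b : Fin s → C) (hgen : Algebra.adjoin F (Set.range b) = ⊤)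
    (h : ∃ M : ℕ, ∀ l : List (Fin s ⊕ (Fin s × Fin s)), M ≤ l.countP mk → wd (vv b) l = 0) :
    NilpId (commIdeal C) := by
  obtain ⟨M, hM⟩ := h
  refine ⟨M, fun x hx => ?_⟩
  have h1 : ∀ l : List C, (∀ y ∈ l, y ∈ PP F b 1) → l.prod ∈ PP F b l.length := by
    intro l
    induction l with
    | nil => intro _; exact PP_zero b hgen _
    | cons a l ih =>
      intro hl
      rw [List.prod_cons, List.length_cons, Nat.add_comm]
      exact PP_mul b 1 l.length _ _ (hl a (by simp)) (ih fun y hy => hl y (by simp [hy]))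
  have h2 := h1 (List.ofFn x) (by
    intro y hy
    rw [List.mem_ofFn] at hy
    obtain ⟨i, rfl⟩ := hy
    exact comm_PP b hgen _ (hx i))
  rw [List.length_ofFn] at h2
  have h3 : PP F b M ≤ ⊥ := by
    rw [PP, Submodule.span_le]
    rintro _ ⟨w, hw, rfl⟩
    exact hM w hw
  exact (Submodule.mem_bot F).1 (h3 h2)

end words

section

variable {F C : Type} [Field F] [Ring C] [Algebra F C]

theorem to_good [Finite F] (ε : C →ₐ[F] F) (hfg : FGen ε) (c : List (Fin 3) →₀ F) (hc : Cond c)
    (hid : Ident c ε) :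
    ∃ (Q : Type) (_ : Ring Q) (_ : Algebra F Q) (_ : Finite Q) (φ : C →ₐ[F] Q),
      Good c (cutε ε φ) := by
  obtain ⟨Q, iR, iA, iF, φ, hφ⟩ := exists_nil ε hfg c hc hid
  refine ⟨Q, iR, iA, iF, φ, ?_⟩
  have hfg' := Pool.Agent.TH908.CUTFG.cut_fg ε hfg φ
  have hid' := ident_inj c ε (cutε ε φ) (Cut ε φ).val Subtype.val_injective (fun x => rfl) hid
  refine ⟨hfg', ?_, hid'⟩
  obtain ⟨s, b, hb, hgen⟩ := hfg'
  apply nilp_of_words b hgen
  obtain ⟨d, e, he, hlin⟩ := exists_lin (cutε ε φ) c hc hid'
  have hv : ∀ i, cutε ε φ (vv b i) = 0 := by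
    rintro (i | ⟨i, j⟩)
    · exact hb i
    · change cutε ε φ (b i * b j - b j * b i) = 0
      rw [map_sub, map_mul, map_mul, hb, zero_mul, mul_comm, zero_mul, sub_self]
  have haug : ∀ w : List (Fin s ⊕ (Fin s × Fin s)), w ≠ [] → cutε ε φ (wd (vv b) w) = 0 := by
    intro w hw
    cases w with
    | nil => exact absurd rfl hw
    | cons i w => rw [wd, List.map_cons, List.prod_cons, map_mul, hv, zero_mul]
  apply Pool.Agent.TH142.RF.marked_nilp Pool.Agent.TH37.SH1.shirshov_comb (F := F)
    (C := Cut ε φ) (Fin s ⊕ (Fin s × Fin s)) (vv b) mk d e he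
  · intro w hw
    exact hlin (fun i => wd (vv b) (w i)) fun i => haug _ (hw i)
  · rintro w ⟨x, hx, hmx⟩
    have hw : w ≠ [] := List.ne_nil_of_mem hx
    have h1 : cutε ε φ (wd (vv b) w) = 0 := haug w hw
    have h2 : φ (wd (vv b) w : Cut ε φ) = 0 := by
      have h3 : φ ((wd (vv b) w : Cut ε φ) : C) =
        (Algebra.ofId F Q) (ε ((wd (vv b) w : Cut ε φ) : C)) := (wd (vv b) w : Cut ε φ).2
      have h4 : ε ((wd (vv b) w : Cut ε φ) : C) = 0 := h1
      rw [h3, h4, map_zero]
    have h5 : wd (vv b) w ∈ commIdeal (Cut ε φ) := by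
      obtain ⟨w1, w2, rfl⟩ := List.append_of_mem hx
      rw [wd_append]
      apply (commIdeal (Cut ε φ)).mul_mem_left
      rw [wd, List.map_cons, List.prod_cons]
      apply (commIdeal (Cut ε φ)).mul_mem_right
      rcases x with i | ⟨i, j⟩
      · exact absurd hmx (by simp [mk])
      · exact TwoSidedIdeal.subset_span ⟨_, _, rfl⟩
    obtain ⟨k, hk⟩ := hφ _ h1 h2 (commIdeal_image (Cut ε φ).val _ h5)
    exact ⟨k, Subtype.ext (by
      rw [Subalgebra.coe_pow]
      exact hk)⟩

/-- A finitely generated algebra satisfying `c` is residually finite. -/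
theorem aug_rf [Finite F] (ε : C →ₐ[F] F) (hfg : FGen ε) (c : List (Fin 3) →₀ F) (hc : Cond c)
    (hid : Ident c ε) : ResFin F C := by
  obtain ⟨Q, iR, iA, iF, φ, hφ⟩ := to_good ε hfg c hc hid
  apply Pool.Agent.TH908.RFCUT.rf_of_cut ε φ
  exact good_rf (fun F C _ _ _ _ ε h1 h2 h h3 => Pool.Agent.TH788.RFAnn.mono_ann ε h1 h2 h h3)
    (cutε ε φ) c hc hφ

end

end Pool.Agent.TH37.RF
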