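import Mathlib

/-!
Definitions for the project: locally residually finite varieties over a finite field
(MP_5aea19_al, helper37).

Augmented algebras `(C, ε)` (`C` unital, `ε : C →ₐ[F] F`) stand for the nonunital algebra `ker ε`.
-/

set_option autoImplicit false

namespace Pool.Agent.TH37.RF

/-- The value of a polynomial in three noncommuting variables `x = 0`, `y = 1`, `z = 2`, given by
its coefficients on words. -/
def ev3 {F C : Type} [Field F] [Ring C] [Algebra F C] (c : List (Fin 3) →₀ F) (x y z : C) : C :=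
  c.sum fun w a => a • (w.map ![x, y, z]).prod

/-- The shape of the identities we use: every word contains `x` and `y`; a word linear in `x` and
in `y` has the form `z ^ i x z ^ j y z ^ k`; and some word `x z ^ n y` has a nonzero coefficient. -/
structure Cond {F : Type} [Field F] (c : List (Fin 3) →₀ F) : Prop where
  two : ∀ w ∈ c.support, (0 : Fin 3) ∈ w ∧ (1 : Fin 3) ∈ w
  lin : ∀ w ∈ c.support, w.count 0 = 1 → w.count 1 = 1 →
    ∃ i j k, w = List.replicate i 2 ++ 0 :: (List.replicate j 2 ++ 1 :: List.replicate k 2)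
  piv : ∃ n, c (0 :: (List.replicate n 2 ++ [1])) ≠ 0

/-- The commutator ideal. -/
def commIdeal (C : Type) [Ring C] : TwoSidedIdeal C :=
  TwoSidedIdeal.span {x | ∃ u v : C, x = u * v - v * u}

/-- Some power of the ideal `N` is zero. -/
def NilpId {C : Type} [Ring C] (N : TwoSidedIdeal C) : Prop :=
  ∃ n : ℕ, ∀ x : Fin n → C, (∀ i, x i ∈ N) → (List.ofFn x).prod = 0

/-- The augmentation ideal is finitely generated as an algebra: `C` is generated by finitely many
elements of `ker ε`. -/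
def FGen {F C : Type} [Field F] [Ring C] [Algebra F C] (ε : C →ₐ[F] F) : Prop :=
  ∃ (r : ℕ) (b : Fin r → C), (∀ i, ε (b i) = 0) ∧ Algebra.adjoin F (Set.range b) = ⊤

/-- The identity `c` holds on the augmentation ideal. -/
def Ident {F C : Type} [Field F] [Ring C] [Algebra F C] (c : List (Fin 3) →₀ F) (ε : C →ₐ[F] F) :
    Prop :=
  ∀ x y z : C, ε x = 0 → ε y = 0 → ε z = 0 → ev3 c x y z = 0

/-- finitely generated, with nilpotent commutator ideal, satisfying `c` -/
structure Good {F C : Type} [Field F] [Ring C] [Algebra F C] (c : List (Fin 3) →₀ F)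
    (ε : C →ₐ[F] F) : Prop where
  fg : FGen ε
  nil : NilpId (commIdeal C)
  ident : Ident c ε

/-- `h` lies in every nonzero two-sided ideal contained in `ker ε`. -/
structure Mono {F C : Type} [Field F] [Ring C] [Algebra F C] (ε : C →ₐ[F] F) (h : C) : Prop where
  ne : h ≠ 0
  aug : ε h = 0
  mem : ∀ I : TwoSidedIdeal C, (∀ x ∈ I, ε x = 0) → I ≠ ⊥ → h ∈ I

/-- residually finite -/
def ResFin (F C : Type) [Field F] [Ring C] [Algebra F C] : Prop :=
  ∀ a : C, a ≠ 0 → ∃ (Q : Type) (_ : Ring Q) (_ : Algebra F Q) (_ : Finite Q) (φ : C →ₐ[F] Q),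
    φ a ≠ 0

/-- For `φ : C → Q` this is `F + (ker φ ∩ ker ε)`. -/
def Cut {F C Q : Type} [Field F] [Ring C] [Algebra F C] [Ring Q] [Algebra F Q] (ε : C →ₐ[F] F)
    (φ : C →ₐ[F] Q) : Subalgebra F C :=
  AlgHom.equalizer φ ((Algebra.ofId F Q).comp ε)

/-- the restriction of the augmentation -/
def cutε {F C Q : Type} [Field F] [Ring C] [Algebra F C] [Ring Q] [Algebra F Q] (ε : C →ₐ[F] F)
    (φ : C →ₐ[F] Q) : Cut ε φ →ₐ[F] F :=
  ε.comp (Cut ε φ).val

/-- `u₀ x₁ u₁ x₂ ⋯ x_k u_k` -/
def TT {C : Type} [Ring C] {k : ℕ} (x : Fin k → C) (u : Fin (k + 1) → C) : C :=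
  u 0 * (List.ofFn fun i : Fin k => x i * u i.succ).prod

/-- The word `z ^ i x z ^ j y z ^ k` for `e = (i, j, k)`. -/
def zword (e : ℕ × ℕ × ℕ) : List (Fin 3) :=
  List.replicate e.1 2 ++ 0 :: (List.replicate e.2.1 2 ++ 1 :: List.replicate e.2.2 2)

/-- the polynomial `∑ α (0, n, 0) t ^ n` -/
noncomputable def pivPoly {F : Type} [Field F] (α : ℕ × ℕ × ℕ →₀ F) : Polynomial F :=
  α.sum fun e a => if e.1 = 0 ∧ e.2.2 = 0 then Polynomial.monomial e.2.1 a else 0

/-- the value of a word -/
def wd {C Λ : Type} [Ring C] (v : Λ → C) (w : List Λ) : C := (w.map v).prod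

end Pool.Agent.TH37.RF
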