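import Pool.Agent.TH37.RF.Defs

/-! Polynomial identities of nonunital algebras, given by coefficients on words. -/

set_option autoImplicit false

namespace Pool.Agent.TH37.RF

/-- product of a nonempty list (`0` for the empty list) -/
def prodNE {A : Type} [NonUnitalRing A] : List A → A
  | [] => 0
  | [x] => x
  | x :: y :: l => x * prodNE (y :: l)

/-- `A` satisfies the identity `f`; `f` is a noncommutative polynomial without constant term in the
variables `ℕ`, given by its coefficients on nonempty words (a coefficient at the empty word would
be ignored). -/
def Satisfies {F : Type} [Field F] (A : Type) [NonUnitalRing A] [Module F A] (f : List ℕ →₀ F) :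
    Prop :=
  ∀ a : ℕ → A, (f.sum fun w r => r • prodNE (w.map a)) = 0

/-- same first letter, same last letter, same letters with multiplicity -/
def SameType (w w' : List ℕ) : Prop :=
  w.head? = w'.head? ∧ w.getLast? = w'.getLast? ∧ w.Perm w'

/-- For every nonempty word `w` the coefficients of `f` at the words of the same type as `w` add up
to zero. (This says that `f` follows from `x₁ [x₂, x₃] x₄ = 0`.) -/
def TrivialId {F : Type} [Field F] (f : List ℕ →₀ F) : Prop :=
  ∀ w : List ℕ, w ≠ [] → (∑ᶠ (w' : List ℕ) (_ : SameType w w'), f w') = 0

end Pool.Agent.TH37.RF
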