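import Pool.Agent.TH37.RF.Asm5
import Pool.Agent.TH37.RF.Ids
import Pool.Agent.TH142.RF.GSTAR
import Pool.Agent.TH28.RF_NEC

/-! Transfer to nonunital algebras. -/

set_option autoImplicit false

namespace Pool.Agent.TH37.RF

section unit

variable {F A : Type} [Field F] [NonUnitalRing A] [Module F A] [IsScalarTower F A A]
  [SMulCommClass F A A]

theorem fgen_unit (s : Set A) (hs : s.Finite) (hgen : NonUnitalAlgebra.adjoin F s = ⊤) :
    FGen (Unitization.fstHom F A) := by
  obtain ⟨r, b, hb⟩ := hs.fin_param
  refine ⟨r, fun i => (b i : Unitization F A), fun i => by simp, ?_⟩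
  rw [eq_top_iff]
  have h1 : ∀ a : A, (a : Unitization F A) ∈
      Algebra.adjoin F (Set.range fun i => (b i : Unitization F A)) := by
    intro a
    have ha : a ∈ NonUnitalAlgebra.adjoin F s := by rw [hgen]; trivial
    induction ha using NonUnitalAlgebra.adjoin_induction with
    | mem x hx =>
      rw [← hb.2] at hx
      obtain ⟨i, rfl⟩ := hx
      exact Algebra.subset_adjoin ⟨i, rfl⟩
    | zero => rw [Unitization.inr_zero]; exact Subalgebra.zero_mem _
    | add x y _ _ hx hy => rw [Unitization.inr_add]; exact Subalgebra.add_mem _ hx hy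
    | mul x y _ _ hx hy => rw [Unitization.inr_mul]; exact Subalgebra.mul_mem _ hx hy
    | smul c x _ hx => rw [Unitization.inr_smul]; exact Subalgebra.smul_mem _ hx _
  intro x _
  rw [← Unitization.inl_fst_add_inr_snd_eq x]
  exact Subalgebra.add_mem _ (Subalgebra.algebraMap_mem _ _) (h1 _)

omit [IsScalarTower F A A] [SMulCommClass F A A] in
theorem inr_prod (w : List A) (hw : w ≠ []) :
    (w.map (Unitization.inr : A → Unitization F A)).prod =
      (Unitization.inr (prodNE w) : Unitization F A) := by
  induction w with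
  | nil => exact absurd rfl hw
  | cons x l ih =>
    cases l with
    | nil => simp [prodNE]
    | cons y l =>
      rw [List.map_cons, List.prod_cons, ih (by simp), prodNE, Unitization.inr_mul]

theorem nonunital_rf [Finite F] (f : List ℕ →₀ F) (hf : ¬ TrivialId f) (hsat : Satisfies A f)
    (s : Set A) (hs : s.Finite) (hgen : NonUnitalAlgebra.adjoin F s = ⊤) (a : A) (ha : a ≠ 0) :
    ∃ (B : Type) (_ : NonUnitalRing B) (_ : Module F B) (_ : IsScalarTower F B B)
      (_ : SMulCommClass F B B) (_ : Module.Finite F B) (φ : A →ₙₐ[F] B),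
      Function.Surjective φ ∧ φ a ≠ 0 := by
  classical
  obtain ⟨c, hc, hcf⟩ := Pool.Agent.TH142.RF.gstar f hf
  set ε : Unitization F A →ₐ[F] F := Unitization.fstHom F A with hε
  have hid : Ident c ε := by
    intro x y z hx hy hz
    refine hcf (Unitization F A) (TwoSidedIdeal.ker ε) ?_ x
      ((Pool.Agent.TH28.RFDetect.mem_ker ε x).2 hx) y
      ((Pool.Agent.TH28.RFDetect.mem_ker ε y).2 hy) z
      ((Pool.Agent.TH28.RFDetect.mem_ker ε z).2 hz)
    intro b hb
    have hb' : ∀ i, b i = ((b i).snd : Unitization F A) := by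
      intro i
      have h1 : (b i).fst = 0 := (Pool.Agent.TH28.RFDetect.mem_ker ε (b i)).1 (hb i)
      conv_lhs => rw [← Unitization.inl_fst_add_inr_snd_eq (b i)]
      rw [h1, Unitization.inl_zero, zero_add]
    have h2 := hsat (fun i => (b i).snd)
    have h3 := congrArg (Unitization.inrNonUnitalAlgHom F A) h2
    rw [map_zero] at h3
    refine Eq.trans ?_ h3
    rw [Finsupp.sum, Finsupp.sum, map_sum]
    refine Finset.sum_congr rfl fun w _ => ?_
    split_ifs with hw
    · subst hw
      simp [prodNE]
    · rw [map_smul]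
      congr 1
      change _ = (Unitization.inr (prodNE (List.map (fun i => (b i).snd) w)) : Unitization F A)
      rw [← inr_prod _ (by simpa using hw), List.map_map]
      congr 1
      refine List.map_congr_left fun i _ => ?_
      exact hb' i
  have hrf := aug_rf ε (fgen_unit s hs hgen) c hc hid
  obtain ⟨Q, iR, iA, iF, φ, hφ⟩ := hrf (a : Unitization F A) (by
    intro h
    apply ha
    exact Unitization.inr_injective (h.trans (Unitization.inr_zero F).symm))
  let ψ : A →ₙₐ[F] Q := (φ : Unitization F A →ₙₐ[F] Q).comp (Unitization.inrNonUnitalAlgHom F A)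
  have hfin : Finite (NonUnitalAlgHom.range ψ) := Subtype.finite
  refine ⟨NonUnitalAlgHom.range ψ, inferInstance, inferInstance, inferInstance, inferInstance,
    Module.Finite.of_finite, NonUnitalAlgHom.codRestrict ψ (NonUnitalAlgHom.range ψ)
      (fun x => ⟨x, rfl⟩), ?_, ?_⟩
  · rintro ⟨_, x, rfl⟩
    exact ⟨x, rfl⟩
  · intro h
    apply hφ
    exact congrArg Subtype.val h

end unit

end Pool.Agent.TH37.RF
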