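import Pool.Agent.TH37.RF.Fin1

/-! Trivial identities follow from `x (y z - z y) t = 0`; identities as elements of the free
nonunital associative algebra. -/

set_option autoImplicit false

namespace Pool.Agent.TH37.RF

section trivial

variable {F A : Type} [Field F] [NonUnitalRing A] [Module F A]

omit [Field F] [Module F A] in
theorem prodNE_cons' (x : A) (l : List A) (hl : l ≠ []) :
    prodNE (x :: l) = x * prodNE l := by
  cases l with
  | nil => exact absurd rfl hl
  | cons y l => rfl

theorem prodNE_perm (hA : ∀ x y z t : A, x * (y * z - z * y) * t = 0) {m m' : List A}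
    (h : m.Perm m') : ∀ x y : A, prodNE (x :: (m ++ [y])) = prodNE (x :: (m' ++ [y])) := by
  induction h with
  | nil => intro x y; rfl
  | cons a _ ih =>
    intro x y
    rw [List.cons_append, List.cons_append, prodNE_cons' x _ (by simp), ih a y,
      prodNE_cons' x _ (by simp)]
  | swap a b l =>
    intro x y
    have h1 := hA x b a (prodNE (l ++ [y]))
    simp only [List.cons_append]
    rw [prodNE_cons' x _ (by simp), prodNE_cons' b _ (by simp), prodNE_cons' a _ (by simp),
      prodNE_cons' x _ (by simp), prodNE_cons' a _ (by simp), prodNE_cons' b _ (by simp),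
      ← sub_eq_zero, ← h1]
    noncomm_ring
  | trans _ _ ih1 ih2 =>
    intro x y
    rw [ih1, ih2]

theorem value_eq' (hA : ∀ x y z t : A, x * (y * z - z * y) * t = 0) {w w' : List ℕ}
    (h : SameType w w') (a : ℕ → A) : prodNE (w.map a) = prodNE (w'.map a) := by
  obtain ⟨h1, h2, h3⟩ := h
  cases w with
  | nil =>
    rw [List.nil_perm] at h3
    rw [h3]
  | cons x t =>
    cases w' with
    | nil => simp at h3
    | cons x' t' =>
      have hx : x = x' := by simpa using h1
      subst hx
      have h4 : t.Perm t' := by simpa using h3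
      rcases List.eq_nil_or_concat t with rfl | ⟨m, y, rfl⟩
      · rw [List.nil_perm] at h4
        rw [h4]
      · rcases List.eq_nil_or_concat t' with rfl | ⟨m', y', rfl⟩
        · simp at h4
        · have hy : y = y' := by
            simpa [List.getLast?_cons] using h2
          subst hy
          have h5 : m.Perm m' := by
            simpa [List.concat_eq_append, List.perm_append_right_iff] using h4
          simp only [List.concat_eq_append, List.map_cons, List.map_append, List.map_nil]
          exact prodNE_perm hA (h5.map a) _ _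

open Classical in
theorem sat_trivial (hA : ∀ x y z t : A, x * (y * z - z * y) * t = 0) (f : List ℕ →₀ F)
    (hf : TrivialId f) : Satisfies A f := by
  intro a
  let T : List ℕ → Option ℕ × Option ℕ × Multiset ℕ := fun w => (w.head?, w.getLast?, (w : Multiset ℕ))
  have hT : ∀ w w', SameType w w' ↔ T w' = T w := by
    intro w w'
    constructor
    · rintro ⟨h1, h2, h3⟩
      simp only [T]
      rw [h1, h2, Multiset.coe_eq_coe.2 h3]
    · intro h
      simp only [T, Prod.mk.injEq, Multiset.coe_eq_coe] at h
      exact ⟨h.1.symm, h.2.1.symm, h.2.2.symm⟩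
  unfold Finsupp.sum
  rw [← Finset.sum_fiberwise_of_maps_to (g := T) (t := f.support.image T)
    (fun w hw => Finset.mem_image_of_mem T hw)]
  apply Finset.sum_eq_zero
  intro τ hτ
  obtain ⟨w0, hw0, rfl⟩ := Finset.mem_image.1 hτ
  have h1 : ∑ w ∈ f.support with T w = T w0, f w • prodNE (w.map a) =
      ∑ w ∈ f.support with T w = T w0, f w • prodNE (w0.map a) := by
    apply Finset.sum_congr rfl
    intro w hw
    rw [Finset.mem_filter] at hw
    rw [value_eq' hA ((hT w0 w).2 hw.2) a]
  rw [h1, ← Finset.sum_smul]
  by_cases hw : w0 = []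
  · subst hw
    have : prodNE (([] : List ℕ).map a) = 0 := rfl
    rw [this, smul_zero]
  · have h2 := hf w0 hw
    have h3 : (∑ᶠ (w' : List ℕ) (_ : SameType w0 w'), f w') =
        ∑ w ∈ f.support with T w = T w0, f w := by
      have : (∑ᶠ (w' : List ℕ) (_ : w' ∈ {w' | SameType w0 w'}), f w') =
          ∑ w ∈ f.support with T w = T w0, f w := by
        apply finsum_mem_eq_sum_of_inter_support_eq
        ext w
        simp only [Set.mem_inter_iff, Set.mem_ofPred_eq, Function.mem_support, Finset.coe_filter,
          Finsupp.mem_support_iff, hT]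
        tauto
      exact this
    rw [← h3, h2, zero_smul]

end trivial

section nec

open Pool.Agent.TH28.RFNec in
/-- a finitely generated algebra with `x (y z - z y) t = 0` which is not residually finite -/
theorem nec' (F : Type) [Field F] [Finite F] :
    ∃ (A : Type) (_ : NonUnitalRing A) (_ : Module F A) (_ : IsScalarTower F A A)
      (_ : SMulCommClass F A A),
      (∃ s : Set A, s.Finite ∧ NonUnitalAlgebra.adjoin F s = ⊤) ∧
      (∀ x y z t : A, x * (y * z - z * y) * t = 0) ∧
      ∃ a : A, a ≠ 0 ∧ ∀ (B : Type) [NonUnitalRing B] [Module F B] [IsScalarTower F B B]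
        [SMulCommClass F B B] [Module.Finite F B] (φ : A →ₙₐ[F] B), φ a = 0 := by
  refine ⟨NA F, inferInstance, inferInstance, inferInstance, inferInstance,
    ⟨gen, by unfold gen; exact Set.toFinite _, adjoin_gen⟩, ?_, Pool.Agent.TH28.RFNec.mk 0 0 1 0,
    ?_, fun B _ _ _ _ _ φ => not_rf φ⟩
  · intro x y z t
    have h1 : x * (y * (z * t)) = _ := prodNE_eq [y, z] x t
    have h2 : x * (z * (y * t)) = _ := prodNE_eq [z, y] x t
    have h3 : FF [y, z] = FF [z, y] := by
      simp only [FF, List.map_cons, List.map_nil, List.prod_cons, List.prod_nil, mul_one]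
      exact mul_comm _ _
    rw [mul_sub, sub_mul, sub_eq_zero, mul_assoc, mul_assoc, mul_assoc, mul_assoc, h1, h2, h3]
  · intro h
    have h1 : (Pool.Agent.TH28.RFNec.mk 0 0 1 0 : NA F) = Pool.Agent.TH28.RFNec.mk 0 0 0 0 := h
    have h2 : (1 : F) = 0 := congrArg (fun x : NA F => x.2.2.1) h1
    exact one_ne_zero h2

end nec

section free

variable {F : Type} [Field F]

/-- the list of letters -/
def toL (w : FreeSemigroup ℕ) : List ℕ := w.head :: w.tail

theorem toL_inj : Function.Injective toL := by
  rintro ⟨a, l⟩ ⟨a', l'⟩ h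
  simp only [toL, List.cons.injEq] at h
  obtain ⟨rfl, rfl⟩ := h
  rfl

/-- coefficients on lists -/
noncomputable def toP (f : MonoidAlgebra F (FreeSemigroup ℕ)) : List ℕ →₀ F :=
  f.coeff.mapDomain toL

theorem toP_toL (f : MonoidAlgebra F (FreeSemigroup ℕ)) (w : FreeSemigroup ℕ) :
    toP f (toL w) = f.coeff w := Finsupp.mapDomain_apply toL_inj _ _

theorem lift_eq {A : Type} [NonUnitalRing A] (a : ℕ → A) (w : FreeSemigroup ℕ) :
    FreeSemigroup.lift a w = prodNE ((toL w).map a) := by
  induction w using FreeSemigroup.recOnMul with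
  | ih1 x => rw [FreeSemigroup.lift_of]; rfl
  | ih2 x y hx hy =>
    rw [FreeSemigroup.lift_of_mul, hy]
    rfl

theorem eval_eq {A : Type} [NonUnitalRing A] [Module F A] [IsScalarTower F A A]
    [SMulCommClass F A A] (a : ℕ → A) (f : MonoidAlgebra F (FreeSemigroup ℕ)) :
    MonoidAlgebra.liftMagma F (FreeSemigroup.lift a) f =
      (toP f).sum fun w r => r • prodNE (w.map a) := by
  rw [MonoidAlgebra.liftMagma_apply_apply, toP, Finsupp.sum_mapDomain_index]
  · refine Finsupp.sum_congr fun w _ => ?_
    rw [← lift_eq]
    rfl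
  · intro w
    rw [zero_smul]
  · intro w r r'
    rw [add_smul]

theorem satisfies_iff {A : Type} [NonUnitalRing A] [Module F A] [IsScalarTower F A A]
    [SMulCommClass F A A] (f : MonoidAlgebra F (FreeSemigroup ℕ)) :
    (∀ a : ℕ → A, MonoidAlgebra.liftMagma F (FreeSemigroup.lift a) f = 0) ↔
      Satisfies A (toP f) := by
  refine forall_congr' fun a => ?_
  rw [eval_eq]

theorem trivial_iff (f : MonoidAlgebra F (FreeSemigroup ℕ)) :
    TrivialId (toP f) ↔ ∀ w : FreeSemigroup ℕ,
      (∑ᶠ (w' : FreeSemigroup ℕ) (_ : SameType (toL w) (toL w')), f.coeff w') = 0 := by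
  have key : ∀ w : FreeSemigroup ℕ, (∑ᶠ (w' : List ℕ) (_ : SameType (toL w) w'), toP f w') =
      ∑ᶠ (w' : FreeSemigroup ℕ) (_ : SameType (toL w) (toL w')), f.coeff w' := by
    intro w
    have h1 : {w' : List ℕ | SameType (toL w) w'} = toL '' {w' | SameType (toL w) (toL w')} := by
      ext w'
      constructor
      · intro h
        cases w' with
        | nil =>
          have h2 := h.2.2
          simp [toL] at h2
        | cons x l => exact ⟨⟨x, l⟩, h, rfl⟩
      · rintro ⟨v, hv, rfl⟩
        exact hv
    have h2 : (∑ᶠ (w' : List ℕ) (_ : w' ∈ {w' : List ℕ | SameType (toL w) w'}), toP f w') =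
      ∑ᶠ (w' : FreeSemigroup ℕ) (_ : w' ∈ {w' | SameType (toL w) (toL w')}), f.coeff w' := by
      rw [h1, finsum_mem_image toL_inj.injOn]
      simp only [toP_toL]
    exact h2
  constructor
  · intro h w
    rw [← key]
    exact h (toL w) (by simp [toL])
  · intro h w hw
    cases w with
    | nil => exact absurd rfl hw
    | cons x l => exact (key ⟨x, l⟩).trans (h ⟨x, l⟩)

end free

end Pool.Agent.TH37.RF
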