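import Mathlib

/-! A lemma on Noetherian rings. -/

set_option autoImplicit false

namespace Pool.Agent.TH37.RF

theorem pow_le_of_ass {R : Type} [CommRing R] [IsNoetherianRing R] (I 𝔫 : Ideal R)
    (h : ∀ (w : R) (Q : Ideal R), Q.IsPrime → (∀ f, f ∈ Q ↔ f * w ∈ I) → 𝔫 ≤ Q) :
    ∃ κ : ℕ, 𝔫 ^ κ ≤ I := by
  have h1 : 𝔫 ≤ I.radical := by
    rw [← Ideal.sInf_minimalPrimes]
    refine le_sInf fun Q hQ => ?_
    have h2 : Q ∈ (Module.annihilator R (R ⧸ I)).minimalPrimes := by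
      rwa [Ideal.annihilator_quotient]
    have h3 := Module.associatedPrimes.minimalPrimes_annihilator_subset_associatedPrimes R (R ⧸ I) h2
    have h4 : IsAssociatedPrime Q (R ⧸ I) := h3
    rw [isAssociatedPrime_iff] at h4
    obtain ⟨hQp, x, hx⟩ := h4
    obtain ⟨w, rfl⟩ := Ideal.Quotient.mk_surjective x
    refine h w Q hQp fun f => ?_
    rw [hx, Submodule.mem_colon_singleton, Submodule.mem_bot]
    have h5 : f • (Ideal.Quotient.mk I w) = Ideal.Quotient.mk I (f * w) := by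
      rw [map_mul]; rfl
    rw [h5, Ideal.Quotient.eq_zero_iff_mem]
  exact Ideal.exists_pow_le_of_le_radical_of_fg h1 (IsNoetherian.noetherian 𝔫)

end Pool.Agent.TH37.RF
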