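import Pool.Agent.TH37.RF.Defs
import Pool.Agent.TH37.RF.Noeth

/-! Lemma S, part 1: commutative quotient, the map `Φ`. -/

set_option autoImplicit false

namespace Pool.Agent.TH37.RF

open MvPolynomial

section quot

variable {F C : Type} [Field F] [Ring C] [Algebra F C]

theorem comm_mem (u v : C) : u * v - v * u ∈ commIdeal C :=
  TwoSidedIdeal.subset_span ⟨u, v, rfl⟩

/-- the commutative quotient -/
theorem exists_comm_quot (F C : Type) [Field F] [Ring C] [Algebra F C] :
    ∃ (Cq : Type) (_ : CommRing Cq) (_ : Algebra F Cq) (q : C →ₐ[F] Cq) (σ : Cq →ₗ[F] C),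
      (∀ y, q (σ y) = y) ∧ (∀ u, q u = 0 ↔ u ∈ commIdeal C) := by
  let N := commIdeal C
  let Cq := N.ringCon.Quotient
  have hmk : ∀ u : C, (N.ringCon.mk' u : Cq) = 0 ↔ u ∈ N := by
    intro u
    rw [TwoSidedIdeal.mem_iff]
    exact RingCon.eq N.ringCon
  have hcomm : ∀ a b : Cq, a * b = b * a := by
    intro a b
    obtain ⟨u, rfl⟩ := Quotient.exists_rep a
    obtain ⟨v, rfl⟩ := Quotient.exists_rep b
    have h1 : (N.ringCon.mk' (u * v - v * u) : Cq) = 0 := (hmk _).2 (comm_mem u v)
    rw [map_sub, map_mul, map_mul, sub_eq_zero] at h1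
    exact h1
  let iR : Ring Cq := inferInstance
  let iC : CommRing Cq := { iR with mul_comm := hcomm }
  let q : C →ₐ[F] Cq :=
    { (N.ringCon.mk' : C →+* Cq) with commutes' := fun r => rfl }
  have hq : ∀ u, q u = N.ringCon.mk' u := fun u => rfl
  have hsurj : Function.Surjective q := by
    intro y
    obtain ⟨u, rfl⟩ := Quotient.exists_rep y
    exact ⟨u, rfl⟩
  obtain ⟨σ, hσ⟩ := q.toLinearMap.exists_rightInverse_of_surjective (LinearMap.range_eq_top.2 hsurj)
  refine ⟨Cq, iC, inferInstance, q, σ, ?_, ?_⟩
  · intro y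
    exact LinearMap.congr_fun hσ y
  · intro u
    exact hmk u

end quot

section multi

variable {F C : Type} [Field F] [Ring C] [Algebra F C] {k : ℕ}

/-- `TT x` as a multilinear map -/
noncomputable def TTm (F : Type) {C : Type} [Field F] [Ring C] [Algebra F C] {k : ℕ}
    (x : Fin k → C) : MultilinearMap F (fun _ : Fin (k + 1) => C) C :=
  (MultilinearMap.mkPiAlgebraFin F (k + 1) C).compLinearMap
    (fun i => LinearMap.mulLeft F (Fin.cons (α := fun _ => C) 1 x i))

theorem TTm_apply (x : Fin k → C) (u : Fin (k + 1) → C) : TTm F x u = TT x u := by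
  rw [TTm, MultilinearMap.compLinearMap_apply, MultilinearMap.mkPiAlgebraFin_apply, TT,
    List.ofFn_succ, List.prod_cons]
  simp

theorem TT_congr (F : Type) {C : Type} [Field F] [Ring C] [Algebra F C] {k : ℕ} (x : Fin k → C)
    (h1 : ∀ (u : Fin (k + 1) → C) (g : Fin (k + 1)), u g ∈ commIdeal C → TT x u = 0)
    (u u' : Fin (k + 1) → C) (h : ∀ i, u i - u' i ∈ commIdeal C) : TT x u = TT x u' := by
  classical
  have key : ∀ s : Finset (Fin (k + 1)), TTm F x (s.piecewise u u') = TTm F x u' := by
    intro s
    induction s using Finset.induction_on with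
    | empty => simp
    | insert i s his ih =>
      rw [Finset.piecewise_insert]
      have e1 : TTm F x (Function.update (s.piecewise u u') i (u i - u' i)) = 0 := by
        rw [TTm_apply]
        apply h1 _ i
        rw [Function.update_self]
        exact h i
      rw [MultilinearMap.map_update_sub, sub_eq_zero] at e1
      rw [e1, ← ih]
      congr 1
      funext j
      by_cases hj : j = i
      · subst hj
        rw [Function.update_self, Finset.piecewise_eq_of_notMem _ _ _ his]
      · rw [Function.update_of_ne hj]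
  have h2 := key Finset.univ
  rw [Finset.piecewise_univ, TTm_apply, TTm_apply] at h2
  exact h2

theorem TT_left (x : Fin k → C) (u : Fin (k + 1) → C) (c : C) :
    TT x (Function.update u 0 (c * u 0)) = c * TT x u := by
  rw [TT, TT, Function.update_self, mul_assoc]
  congr 3

theorem TT_right (x : Fin (k + 1) → C) (u : Fin (k + 2) → C) (c : C) :
    TT x (Function.update u (Fin.last (k + 1)) (u (Fin.last (k + 1)) * c)) = TT x u * c := by
  have h0 : (0 : Fin (k + 2)) ≠ Fin.last (k + 1) := Fin.last_pos.ne
  have h1 : ∀ i : Fin k, (i.castSucc.succ : Fin (k + 2)) ≠ Fin.last (k + 1) := by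
    intro i
    rw [Fin.succ_castSucc]
    exact (Fin.castSucc_lt_last _).ne
  rw [TT, TT, List.ofFn_succ', List.ofFn_succ', List.prod_concat, List.prod_concat,
    Function.update_of_ne h0, Fin.succ_last, Function.update_self]
  simp only [Function.update_of_ne (h1 _), mul_assoc]

end multi


section Phi

variable {F C : Type} [Field F] [Ring C] [Algebra F C] {r k : ℕ} {Cq : Type} [CommRing Cq]
  [Algebra F Cq] (σ : Cq →ₗ[F] C) (x : Fin k → C) (π : MvPolynomial (Fin r) F →ₐ[F] Cq)

/-- the variables of gap `g` -/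
noncomputable def rho (F : Type) [Field F] {r k : ℕ} (g : Fin (k + 1)) :
    MvPolynomial (Fin r) F →ₐ[F] MvPolynomial (Fin (k + 1) × Fin r) F :=
  rename (Prod.mk g)

/-- the part of an exponent in gap `g` -/
noncomputable def part (e : Fin (k + 1) × Fin r →₀ ℕ) (g : Fin (k + 1)) : Fin r →₀ ℕ :=
  e.comapDomain (Prod.mk g) (Prod.mk_right_injective g).injOn

/-- the linear map `Φ` -/
noncomputable def Phi : MvPolynomial (Fin (k + 1) × Fin r) F →ₗ[F] C :=
  (basisMonomials (Fin (k + 1) × Fin r) F).constr F
    (fun e => TTm F x (fun g => σ (π (monomial (part e g) 1))))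

theorem prod_rho_monomial (e : Fin (k + 1) → Fin r →₀ ℕ) :
    ∏ g, rho F g (monomial (e g) 1) =
      monomial (∑ g, (e g).mapDomain (Prod.mk g)) (1 : F) := by
  simp only [rho, rename_monomial]
  rw [MvPolynomial.monomial_sum_one]

theorem part_sum (e : Fin (k + 1) → Fin r →₀ ℕ) (g : Fin (k + 1)) :
    part (∑ g, (e g).mapDomain (Prod.mk g)) g = e g := by
  classical
  ext i
  rw [part, Finsupp.comapDomain_apply, Finsupp.finsetSum_apply, Finset.sum_eq_single g]
  · exact Finsupp.mapDomain_apply (Prod.mk_right_injective g) _ _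
  · intro g' _ hg'
    apply Finsupp.mapDomain_of_notMem_range
    rintro ⟨j, hj⟩
    exact hg' (congrArg Prod.fst hj)
  · intro h
    exact absurd (Finset.mem_univ g) h

theorem sum_part (e : Fin (k + 1) × Fin r →₀ ℕ) :
    ∑ g, (part e g).mapDomain (Prod.mk g) = e := by
  classical
  ext ⟨g, i⟩
  rw [Finsupp.finsetSum_apply, Finset.sum_eq_single g]
  · rw [Finsupp.mapDomain_apply (Prod.mk_right_injective g)]
    rfl
  · intro g' _ hg'
    apply Finsupp.mapDomain_of_notMem_range
    rintro ⟨j, hj⟩
    exact hg' (congrArg Prod.fst hj)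
  · intro h
    exact absurd (Finset.mem_univ g) h

theorem Phi_prod (f : Fin (k + 1) → MvPolynomial (Fin r) F) :
    Phi σ x π (∏ g, rho F g (f g)) = TTm F x (fun g => σ (π (f g))) := by
  have key : (Phi σ x π).compMultilinearMap
      ((MultilinearMap.mkPiAlgebra F (Fin (k + 1)) (MvPolynomial (Fin (k + 1) × Fin r) F)).compLinearMap
        (fun g => (rho F g).toLinearMap)) =
      (TTm F x).compLinearMap (fun _ => σ.comp π.toLinearMap) := by
    refine Module.Basis.ext_multilinear (fun _ => basisMonomials (Fin r) F) fun v => ?_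
    rw [LinearMap.compMultilinearMap_apply, MultilinearMap.compLinearMap_apply,
      MultilinearMap.compLinearMap_apply, MultilinearMap.mkPiAlgebra_apply]
    simp only [AlgHom.toLinearMap_apply, coe_basisMonomials, LinearMap.comp_apply]
    rw [prod_rho_monomial]
    have h1 := (basisMonomials (Fin (k + 1) × Fin r) F).constr_basis F
      (fun e => TTm F x (fun g => σ (π (monomial (part e g) 1))))
      (∑ g, (v g).mapDomain (Prod.mk g))
    rw [coe_basisMonomials] at h1
    rw [Phi, h1]
    simp only [part_sum]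
  exact congrArg (fun m => m f) key

/-- linear maps agreeing on products of polynomials in the gaps -/
theorem prod_ext {V : Type} [AddCommGroup V] [Module F V]
    (L : MvPolynomial (Fin (k + 1) × Fin r) F →ₗ[F] V)
    (h : ∀ f : Fin (k + 1) → MvPolynomial (Fin r) F, L (∏ g, rho F g (f g)) = 0) : L = 0 := by
  apply (basisMonomials (Fin (k + 1) × Fin r) F).ext
  intro e
  rw [coe_basisMonomials, LinearMap.zero_apply]
  have h1 := h (fun g => monomial (part e g) 1)
  rw [prod_rho_monomial, sum_part] at h1
  exact h1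

end Phi

end Pool.Agent.TH37.RF
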