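import Pool.Agent.TH37.RF.LemS4a

/-! Lemma S, part 4: the associated primes. -/

set_option autoImplicit false

namespace Pool.Agent.TH37.RF

open MvPolynomial

section

variable {F C : Type} [Field F] [Ring C] [Algebra F C] {r k : ℕ}
variable {b : Fin r → C} {ε : C →ₐ[F] F} {Φ : MvPolynomial (Fin (k + 2) × Fin r) F →ₗ[F] C}

/-- the largest ideal inside the kernel of `Φ` -/
def kerId (Φ : MvPolynomial (Fin (k + 2) × Fin r) F →ₗ[F] C) :
    Ideal (MvPolynomial (Fin (k + 2) × Fin r) F) where
  carrier := {f | ∀ y, Φ (f * y) = 0}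
  zero_mem' := by
    intro y
    rw [zero_mul, map_zero]
  add_mem' := by
    intro f g hf hg y
    rw [add_mul, map_add, hf, hg, add_zero]
  smul_mem' := by
    intro g f hf y
    rw [smul_eq_mul, mul_comm g f, mul_assoc]
    exact hf _

theorem mem_kerId (f : MvPolynomial (Fin (k + 2) × Fin r) F) :
    f ∈ kerId Φ ↔ ∀ y, Φ (f * y) = 0 := Iff.rfl

/-- outer variables lie in `Q` -/
theorem outer_mem (hΦ : PhiData F r k b ε Φ)
    (hgen : Algebra.adjoin F (Set.range b) = ⊤) (h : C) (hm : Mono ε h)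
    (hh : ∀ i, b i * h = 0 ∧ h * b i = 0)
    (α : ℕ × ℕ × ℕ →₀ F) (n₀ : ℕ) (hn₀ : α (0, n₀, 0) ≠ 0)
    (hrel : ∀ (g : Fin (k + 2)), g ≠ 0 → g ≠ Fin.last (k + 1) → ∀ (i : Fin r) (f : Polynomial F),
      f.coeff 0 = 0 → Prel α g (Polynomial.aeval (X i) f) ∈ kerId Φ)
    (w : MvPolynomial (Fin (k + 2) × Fin r) F) (Q : Ideal (MvPolynomial (Fin (k + 2) × Fin r) F))
    (hQ : Q.IsPrime) (hQw : ∀ f, f ∈ Q ↔ f * w ∈ kerId Φ) :
    ∀ s, iot F r k (X s) ∈ Q := by
  classical
  let U := MvPolynomial (Fin 2 × Fin r) F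
  let R := MvPolynomial (Fin (k + 2) × Fin r) F
  let D := R ⧸ Q
  let mk : R →ₐ[F] D := Ideal.Quotient.mkₐ F Q
  have hmk : ∀ f : R, mk f = 0 ↔ f ∈ Q := fun f => Ideal.Quotient.eq_zero_iff_mem
  have iDom : IsDomain D := Ideal.Quotient.isDomain Q
  have hK : kerId Φ ≤ Q := by
    intro f hf
    rw [hQw]
    exact (kerId Φ).mul_mem_right _ hf
  -- units
  have hS : ∀ μ ∈ mid F r, iot F r k (1 + μ) ∉ Q := by
    intro μ hμ hQμ
    rw [hQw, mem_kerId] at hQμ
    apply hQ.ne_top
    rw [Ideal.eq_top_iff_one, hQw, one_mul, mem_kerId]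
    intro y
    apply hΦ.inj hgen h hm hh _ μ hμ
    rw [← mul_assoc]
    exact hQμ y
  let iA : Algebra U D := ((mk : R →+* D).comp (iot F r k : U →+* R)).toAlgebra
  let iM : Module U D := @Algebra.toModule U D _ _ iA
  have hA : ∀ u : U, algebraMap U D u = mk (iot F r k u) := fun u => rfl
  have iT : IsScalarTower F U D := IsScalarTower.of_algebraMap_eq (fun a => by
    rw [hA, MvPolynomial.algebraMap_eq, iot, rename_C]
    rfl)
  have hX : ∀ s : Fin 2 × Fin r, (X s : U) ∈ mid F r := fun s =>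
    Ideal.subset_span ⟨s, rfl⟩
  -- the integral relations
  have hint : ∀ t : Fin (k + 2) × Fin r, ∃ μ ∈ mid F r,
      IsIntegral U ((algebraMap U D (1 + μ)) * mk (X t)) := by
    rintro ⟨g, i⟩
    by_cases hg0 : g = 0
    · subst hg0
      refine ⟨0, (mid F r).zero_mem, ?_⟩
      have e1 : mk (X (0, i)) = algebraMap U D (X (0, i)) := by
        rw [hA, iot, rename_X]
        rfl
      rw [e1, ← map_mul]
      exact isIntegral_algebraMap
    by_cases hgl : g = Fin.last (k + 1)
    · subst hgl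
      refine ⟨0, (mid F r).zero_mem, ?_⟩
      have e1 : mk (X (Fin.last (k + 1), i)) = algebraMap U D (X (1, i)) := by
        rw [hA, iot, rename_X]
        rfl
      rw [e1, ← map_mul]
      exact isIntegral_algebraMap
    refine integral_of_rel (F := F) (U := U) (D := D)
      (mid F r) (fun u hu h0 => hS u hu ((hmk _).1 (by rw [← hA]; exact h0)))
      (X (0, i)) (X (1, i)) (hX _) (hX _) (mk (X (g, i))) α n₀ hn₀ ?_
    intro f hf
    have h1 := (hmk _).2 (hK (hrel g hg0 hgl i f hf))
    rw [← h1, Prel, Finsupp.sum, Finsupp.sum, map_sum]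
    refine Finset.sum_congr rfl fun e _ => ?_
    have e0 : ∀ g' : Fin (k + 2), rho F g' (Polynomial.aeval (X i) f) =
        Polynomial.aeval (X (g', i)) f := by
      intro g'
      rw [← Polynomial.aeval_algHom_apply, rho, rename_X]
    have e2 : algebraMap U D (Polynomial.aeval (X (0, i)) f) =
        mk (Polynomial.aeval (X (0, i)) f) := by
      rw [hA, ← Polynomial.aeval_algHom_apply, iot, rename_X]
      rfl
    have e3 : algebraMap U D (Polynomial.aeval (X (1, i)) f) =
        mk (Polynomial.aeval (X (Fin.last (k + 1), i)) f) := by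
      rw [hA, ← Polynomial.aeval_algHom_apply, iot, rename_X]
      rfl
    have e4 : algebraMap F D (α e) = mk (algebraMap F R (α e)) := (mk.commutes _).symm
    rw [e2, e3, e4, e0, e0, e0, Polynomial.aeval_algHom_apply mk (X (g, i)) f,
      Algebra.smul_def (α e), map_mul, map_mul, map_mul, map_pow, map_pow, map_pow]
    ring
  obtain ⟨G, hG⟩ := exists_span (F := F) (U := U) (D := D) mk (mid F r) hint
  have hsurj : Function.Surjective mk := Ideal.Quotient.mk_surjective
  choose lift hlift using hsurj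
  choose κ hκ using fun y => hΦ.torsion hgen h hm hh y
  set κ0 := G.sup fun d => κ (lift d * w) with hκ0
  have hkey : ∀ v ∈ mid F r ^ κ0, ∀ e ∈ Submodule.span U (G : Set D), ∀ e' : R, mk e' = e →
      Φ (iot F r k v * (e' * w)) = 0 := by
    intro v hv
    have hQ0 : ∀ q ∈ Q, Φ (iot F r k v * (q * w)) = 0 := by
      intro q hq
      rw [hQw, mem_kerId] at hq
      rw [mul_comm]
      exact hq _
    have hdiff : ∀ e' e'' : R, mk e' = mk e'' → Φ (iot F r k v * (e'' * w)) = 0 →
        Φ (iot F r k v * (e' * w)) = 0 := by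
      intro e' e'' he h0
      have h1 : e' - e'' ∈ Q := by
        rw [← hmk, map_sub, he, sub_self]
      have h2 := hQ0 _ h1
      rw [sub_mul, mul_sub, map_sub, h0, sub_zero] at h2
      exact h2
    intro e he
    refine Submodule.span_induction (p := fun e _ => ∀ e' : R, mk e' = e →
      Φ (iot F r k v * (e' * w)) = 0) ?_ ?_ ?_ ?_ he
    · intro d hd e' he'
      apply hdiff e' (lift d) (by rw [he', hlift])
      rw [← mem_annJ hΦ]
      apply hκ
      exact Ideal.pow_le_pow_right (Finset.le_sup (f := fun d => κ (lift d * w)) hd) hv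
    · intro e' he'
      exact hQ0 _ ((hmk _).1 he')
    · intro d1 d2 _ _ h1 h2 e' he'
      apply hdiff e' (lift d1 + lift d2) (by rw [he', map_add, hlift, hlift])
      rw [add_mul, mul_add, map_add, h1 _ (hlift _), h2 _ (hlift _), add_zero]
    · intro u d _ h1 e' he'
      apply hdiff e' (iot F r k u * lift d) (by
        rw [he', map_mul mk, hlift, Algebra.smul_def, hA])
      have e1 : iot F r k v * (iot F r k u * lift d * w) =
          iot F r k u * (iot F r k v * (lift d * w)) := by ring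
      rw [e1]
      exact hΦ.zero_mul u _ (h1 _ (hlift _))
  have hpow : ∀ v ∈ mid F r ^ κ0, iot F r k v ∈ Q := by
    intro v hv
    rw [hQw, mem_kerId]
    intro y
    obtain ⟨ν, hν, hν'⟩ := hG y
    apply hΦ.inj hgen h hm hh _ ν hν
    have h2 := hkey v hv _ hν' (iot F r k (1 + ν) * y) (by rw [map_mul mk, hA])
    rw [← h2]
    congr 1
    ring
  intro s
  have h3 : iot F r k (X s ^ κ0) ∈ Q := hpow _ (Ideal.pow_mem_pow (hX s) κ0)
  rw [map_pow (iot F r k)] at h3
  exact hQ.mem_of_pow_mem κ0 h3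

end

end Pool.Agent.TH37.RF
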